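import Pool.Agent.H87.TW.UNR

/-! # [H87 TX MIN] Reduction of the Puiseux data to the minimal ramification (helper87)

`pd : PData g n` with `pd.e = k e'` and all branches in `ℂ[[T^k]]`: data `pd'` with `e'`, `q^k`, `R^k` and the
branches in `T^k`. For the maximal `k` the rotations by the `e'`-th roots of unity act faithfully. -/

namespace Pool.Agent.H87.TX

open Finset Polynomial Pool.Agent.H72.ES Pool.Agent.H87.SA2 Pool.Agent.H8.AW Pool.Agent.H52.AC
  Pool.Agent.H97.NW Pool.Agent.H97.FB Pool.Agent.H87.TW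

variable {g : ℤ[X][X]} {n : ℕ}

/-- the series in `T^k` -/
noncomputable def xk (pd : PData g n) (k : ℕ) (u : Fin n) : PowerSeries ℂ :=
  PowerSeries.mk fun j => PowerSeries.coeff (k * j) (pd.x u)

theorem coeff_xk (pd : PData g n) (k : ℕ) (u : Fin n) (j : ℕ) :
    PowerSeries.coeff j (xk pd k u) = PowerSeries.coeff (k * j) (pd.x u) := by
  rw [xk, PowerSeries.coeff_mk]

theorem exr_xk (pd : PData g n) {k : ℕ} (hk : k ≠ 0)
    (hs : ∀ u j, ¬ k ∣ j → PowerSeries.coeff j (pd.x u) = 0) (u : Fin n) :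
    exr ℂ k hk (xk pd k u) = pd.x u := by
  ext j
  rw [coeff_exr]
  split_ifs with h
  · obtain ⟨i, rfl⟩ := h
    rw [Nat.mul_div_cancel_left i (Nat.pos_of_ne_zero hk), coeff_xk]
  · exact (hs u j h).symm

theorem exr_tqk {e k q : ℕ} (hk : k ≠ 0) : (exr ℂ k hk).comp (tq e (q ^ k)) = tq (k * e) q := by
  apply Polynomial.ringHom_ext
  · intro a
    simp [tq]
  · rw [RingHom.comp_apply, tq, coe_eval₂RingHom, eval₂_X, tq, coe_eval₂RingHom, eval₂_X,
      map_pow, map_mul, exr_C, exr_X, pow_mul, mul_pow, ← map_pow, Nat.cast_pow, mul_pow, mul_pow,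
      ← map_pow, ← map_pow]

/-- the reduced data -/
noncomputable def pdK (pd : PData g n) {k e' : ℕ} (hk : k ≠ 0) (he : pd.e = k * e')
    (hs : ∀ u j, ¬ k ∣ j → PowerSeries.coeff j (pd.x u) = 0) : PData g n where
  e := e'
  q := pd.q ^ k
  e_pos := by
    have h1 := pd.e_pos
    rw [he] at h1
    rcases Nat.eq_zero_or_pos e' with h0 | h0
    · rw [h0, mul_zero] at h1
      omega
    · exact h0
  q_pos := Nat.one_le_pow _ _ pd.q_pos
  x := xk pd k
  x_inj := by
    intro u v h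
    apply pd.x_inj
    rw [← exr_xk pd hk hs u, ← exr_xk pd hk hs v, h]
  split := by
    apply Polynomial.map_injective (exr ℂ k hk) (exr_inj hk)
    rw [Polynomial.map_map, exr_tqk, ← he, pd.split, Polynomial.map_prod]
    refine Finset.prod_congr rfl fun i _ => ?_
    rw [Polynomial.map_sub, Polynomial.map_X, Polynomial.map_C, exr_xk pd hk hs]
  integral := fun i j => by
    rw [coeff_xk]
    exact pd.integral i _
  R := pd.R ^ k
  R_ge := by
    have h1 : (1 : ℝ) ≤ pd.R := by linarith [pd.R_ge]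
    calc (2 : ℝ) ≤ pd.R ^ 1 := by rw [pow_one]; exact pd.R_ge
      _ ≤ pd.R ^ k := pow_le_pow_right₀ h1 (Nat.pos_of_ne_zero hk)
  growth := fun i j => by
    have h1 : (1 : ℝ) ≤ pd.R := by linarith [pd.R_ge]
    rw [coeff_xk, ← pow_mul]
    refine (pd.growth i _).trans (pow_le_pow_right₀ h1 ?_)
    rw [mul_add, mul_one]
    exact Nat.add_le_add_left (Nat.pos_of_ne_zero hk) _

/-- the values -/
theorem evz_xk (pd : PData g n) {k : ℕ} (hk : k ≠ 0)
    (hs : ∀ u j, ¬ k ∣ j → PowerSeries.coeff j (pd.x u) = 0) (u : Fin n) (T : ℂ) :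
    evz T (pd.x u) = evz (T ^ k) (xk pd k u) := by
  unfold Pool.Agent.H52.AC.evz
  have h1 : Function.Injective fun j : ℕ => k * j := fun a b h =>
    Nat.eq_of_mul_eq_mul_left (Nat.pos_of_ne_zero hk) h
  rw [← h1.tsum_eq]
  · refine tsum_congr fun j => ?_
    rw [coeff_xk, pow_mul]
  · intro j hj
    by_contra h2
    apply hj
    have h3 : ¬ k ∣ j := by
      rintro ⟨i, rfl⟩
      exact h2 ⟨i, rfl⟩
    show PowerSeries.coeff j (pd.x u) * T ^ j = 0
    rw [hs u j h3, zero_mul]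

/-- the data with minimal ramification -/
theorem exists_min (pd : PData g n) : ∃ (k : ℕ) (pd' : PData g n), 1 ≤ k ∧ pd.e = k * pd'.e ∧
    pd'.q = pd.q ^ k ∧ pd'.R = pd.R ^ k ∧
    (∀ u j, PowerSeries.coeff j (pd'.x u) = PowerSeries.coeff (k * j) (pd.x u)) ∧
    (∀ u j, ¬ k ∣ j → PowerSeries.coeff j (pd.x u) = 0) ∧
    (∀ u (T : ℂ), evz T (pd.x u) = evz (T ^ k) (pd'.x u)) ∧
    (∀ ζ : ℂ, ζ ^ pd'.e = 1 → (∀ u, PowerSeries.rescale ζ (pd'.x u) = pd'.x u) → ζ = 1) := by
  classical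
  have hpe := pd.e_pos
  obtain ⟨S, hS⟩ : ∃ S : Finset ℕ, S = pd.e.divisors.filter fun k =>
    ∀ u j, ¬ k ∣ j → PowerSeries.coeff j (pd.x u) = 0 := ⟨_, rfl⟩
  have h1S : 1 ∈ S := by
    rw [hS, mem_filter, Nat.mem_divisors]
    exact ⟨⟨one_dvd _, by omega⟩, fun u j h => absurd (one_dvd j) h⟩
  obtain ⟨k, hkS, hmax⟩ := S.exists_max_image id ⟨1, h1S⟩
  rw [hS, mem_filter, Nat.mem_divisors] at hkS
  obtain ⟨⟨⟨e', he'⟩, -⟩, hs⟩ := hkS
  have hk0 : k ≠ 0 := by
    rintro rfl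
    rw [zero_mul] at he'
    omega
  have he0 : e' ≠ 0 := by
    rintro rfl
    rw [mul_zero] at he'
    omega
  refine ⟨k, pdK pd hk0 he' hs, Nat.pos_of_ne_zero hk0, he', rfl, rfl, fun u j => coeff_xk pd k u j,
    hs, fun u T => evz_xk pd hk0 hs u T, ?_⟩
  intro ζ hζ hfix
  have hζ' : ζ ^ e' = 1 := hζ
  have hfix' : ∀ u, PowerSeries.rescale ζ (xk pd k u) = xk pd k u := hfix
  obtain ⟨d, hd⟩ : ∃ d, d = orderOf ζ := ⟨_, rfl⟩
  have hde : d ∣ e' := by
    rw [hd]
    exact orderOf_dvd_of_pow_eq_one hζ'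
  have hmem : k * d ∈ S := by
    rw [hS, mem_filter, Nat.mem_divisors]
    refine ⟨⟨?_, by omega⟩, ?_⟩
    · rw [he']
      exact mul_dvd_mul_left k hde
    · intro u j hj
      by_cases hkj : k ∣ j
      · obtain ⟨i, rfl⟩ := hkj
        have hi : ¬ d ∣ i := fun h => hj (mul_dvd_mul_left k h)
        have h2 := congrArg (PowerSeries.coeff i) (hfix' u)
        rw [PowerSeries.coeff_rescale, coeff_xk] at h2
        have h3 : (ζ ^ i - 1) * PowerSeries.coeff (k * i) (pd.x u) = 0 := by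
          rw [sub_mul, one_mul, h2, sub_self]
        rcases mul_eq_zero.1 h3 with h4 | h4
        · exfalso
          apply hi
          rw [hd]
          exact orderOf_dvd_of_pow_eq_one (sub_eq_zero.1 h4)
        · exact h4
      · exact hs u j hkj
  have h2 := hmax _ hmem
  have h3 : k * d ≤ k := h2
  have hd1 : d = 1 := by
    have hd0 : d ≠ 0 := by
      rintro rfl
      rw [zero_dvd_iff] at hde
      exact he0 hde
    have h4 : d ≤ 1 := by
      by_contra h5
      have h6 : k * 2 ≤ k * d := Nat.mul_le_mul_left k (by omega)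
      omega
    omega
  rw [hd] at hd1
  exact orderOf_eq_one_iff.1 hd1

end Pool.Agent.H87.TX
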