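import Pool.Agent.H87.TX.Defs
import Pool.Agent.H87.TW.UNR

/-! # [H87 TX UNX] From the Puiseux data of a family of degree `m` with different constant terms to `e = 1` -/

namespace Pool.Agent.H87.TX

open Finset Polynomial Pool.Agent.H72.ES Pool.Agent.H87.SA2 Pool.Agent.H8.AW Pool.Agent.H52.AC
  Pool.Agent.H97.NW Pool.Agent.H97.FB Pool.Agent.H87.TW

theorem unm_of_fam (n m : ℕ) : ∃ C : ℕ, 1 ≤ C ∧ ∀ (B : ℕ) (f : ℤ[X][X]) (Fm : FamB n m B f),
    (Function.Injective fun u => PowerSeries.coeff 0 (Fm.pd.x u)) →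
    ∃ Q : UnM n m (B ^ C) f,
      (∀ u, PowerSeries.coeff 0 (Q.pd.x u) = PowerSeries.coeff 0 (Fm.pd.x u)) ∧
      ∀ a : ℕ, B ^ C ≤ a → ∀ u, Q.th a u = thA Fm.pd m a u := by
  refine ⟨n.factorial + 1, by omega, fun B f Fm hinj => ?_⟩
  have hB := Fm.B2
  have hBB : B ≤ B ^ (n.factorial + 1) := by
    calc B = B ^ 1 := (pow_one B).symm
      _ ≤ B ^ (n.factorial + 1) := Nat.pow_le_pow_right (by omega) (by omega)
  have hBe : B ^ Fm.pd.e ≤ B ^ (n.factorial + 1) :=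
    Nat.pow_le_pow_right (by omega) (Fm.e_le.trans (Nat.le_succ _))
  have hR2 := Fm.pd.R_ge
  have hRe : Fm.pd.R ^ Fm.pd.e ≤ ((B ^ Fm.pd.e : ℕ) : ℝ) := by
    rw [Nat.cast_pow]
    exact pow_le_pow_left₀ (by linarith) Fm.R_le _
  refine ⟨{ n2 := Fm.n2
            m1 := Fm.m1
            B2 := hB.trans hBB
            monic := Fm.monic
            deg := Fm.deg
            cdeg := Fm.cdeg
            le := fun i j => (Fm.le i j).trans (by exact_mod_cast hBB)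
            pd := pdE Fm.pd hinj
            e1 := rfl
            q_le := (Nat.pow_le_pow_left Fm.q_le _).trans hBe
            R_le := hRe.trans (by exact_mod_cast hBe)
            inj0 := ?_ }, ?_, ?_⟩
  · intro u v h
    apply hinj
    have h1 : PowerSeries.coeff 0 (xe Fm.pd u) = PowerSeries.coeff 0 (xe Fm.pd v) := h
    rw [coeff_xe, coeff_xe, mul_zero] at h1
    exact h1
  · intro u
    show PowerSeries.coeff 0 (xe Fm.pd u) = _
    rw [coeff_xe, mul_zero]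
  · intro a ha u
    have ha1 : 1 ≤ a := by
      have : 1 ≤ B ^ (n.factorial + 1) := Nat.one_le_pow _ _ (by omega)
      omega
    have hX := anv_XA_pos Fm.pd ha1
    have he : Fm.pd.e ≠ 0 := by have := Fm.pd.e_pos; omega
    have hlt : Fm.pd.R < XA Fm.pd a := by
      refine lt_of_pow_lt_pow_left₀ Fm.pd.e hX.le ?_
      rw [anv_XA_pow]
      have h1 : ((B ^ Fm.pd.e : ℕ) : ℝ) < a := by
        have h2 : B ^ Fm.pd.e < B ^ (n.factorial + 1) :=
          Nat.pow_lt_pow_right (by omega) (Nat.lt_succ_of_le Fm.e_le)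
        exact_mod_cast lt_of_lt_of_le h2 ha
      have h2 : (1 : ℝ) ≤ (Fm.pd.q : ℝ) ^ Fm.pd.e := one_le_pow₀ (anv_q Fm.pd)
      have h3 : (0 : ℝ) ≤ a := Nat.cast_nonneg a
      calc Fm.pd.R ^ Fm.pd.e ≤ ((B ^ Fm.pd.e : ℕ) : ℝ) := hRe
        _ < a := h1
        _ = 1 * a := (one_mul _).symm
        _ ≤ (Fm.pd.q : ℝ) ^ Fm.pd.e * a := mul_le_mul_of_nonneg_right h2 h3
    have hgr : Gr (1 / XA Fm.pd a) (Fm.pd.x u) := by
      refine anv_gr Fm.pd (one_div_pos.2 hX).le ?_ u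
      rw [mul_one_div, div_lt_one hX]
      exact hlt
    show (a : ℂ) ^ m * evz (1 / (((Fm.pd.q ^ Fm.pd.e : ℕ) : ℂ) * a)) (xe Fm.pd u) = _
    rw [thA, evC_eq_evz (one_div_pos.2 hX).le hgr, evz_xe Fm.pd hinj]
    congr 2
    have h4 : (XA Fm.pd a : ℂ) ^ Fm.pd.e = ((Fm.pd.q ^ Fm.pd.e : ℕ) : ℂ) * a := by
      have h5 := congrArg (fun z : ℝ => (z : ℂ)) (anv_XA_pow Fm.pd a)
      push_cast at h5 ⊢
      exact h5
    rw [← h4]
    push_cast
    rw [div_pow, one_pow]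

end Pool.Agent.H87.TX
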