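import Pool.Agent.H87.TX.Defs

/-! # [H87 TX RSC] Rescaling of Laurent series

`g = iL.comp (PowerSeries.rescale ω) : ℂ⟦X⟧ → ℂ((X))` is injective (`ω ≠ 0`: compare coefficients, `PowerSeries.coeff_rescale`; `iL_inj` in `Pool/Agent/H87/TW/LAU.lean` or `HahnSeries.ofPowerSeries_injective`). `R = IsFractionRing.lift hg` (`LaurentSeries ℂ` is the fraction field of `PowerSeries ℂ`: Mathlib has the instance
`IsFractionRing (PowerSeries K) (LaurentSeries K)`; `algebraMap = HahnSeries.ofPowerSeries ℤ ℂ`, `LaurentSeries.coe_algebraMap`), `IsFractionRing.lift_algebraMap`. -/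

namespace Pool.Agent.H87.TX

open Finset Polynomial Pool.Agent.H87.TW

theorem exists_resc (ω : ℂ) (hω : ω ≠ 0) : ∃ R : LaurentSeries ℂ →+* LaurentSeries ℂ,
    ∀ w : PowerSeries ℂ, R (iL w) = iL (PowerSeries.rescale ω w) := by
  have hg : Function.Injective (iL.comp (PowerSeries.rescale ω)) := by
    intro w w' h
    have h1 : PowerSeries.rescale ω w = PowerSeries.rescale ω w' :=
      HahnSeries.ofPowerSeries_injective h
    ext n
    have h2 := congrArg (PowerSeries.coeff n) h1
    rw [PowerSeries.coeff_rescale, PowerSeries.coeff_rescale] at h2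
    exact mul_left_cancel₀ (pow_ne_zero n hω) h2
  refine ⟨IsFractionRing.lift (K := LaurentSeries ℂ) hg, fun w => ?_⟩
  have h3 := IsFractionRing.lift_algebraMap (K := LaurentSeries ℂ) hg w
  rw [LaurentSeries.coe_algebraMap] at h3
  exact h3

end Pool.Agent.H87.TX
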