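import Pool.Agent.H87.TW.SYM

/-! # [H87 TX NRM] The norm from `ℤ[x]` to `ℤ[x^m]` (Mathlib and SYM only)

`φ : ℤ[X] → S` injective, `y_i` the roots of `Y^m - φ(X)`. Then `∏_i Φ(y_i, Z)` has coefficients in `φ(ℤ[X])`.
PROOF. `A = ℤ[X]`, `p = X^m - C X ∈ A[X]`, `p.map φ = ∏ (X - C (y i))`. Let `R = MvPolynomial (Fin m) A` and `P = ∏_i Φ.map (eval₂RingHom (Int.castRingHom R) (MvPolynomial.X i)) ∈ R[X]`. Each coefficient `P.coeff j` is symmetric: `rename π` (as a ring hom `R → R`, `MvPolynomial.rename π`) maps the `i`-th factor to the `π i`-th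
(`Polynomial.map_map`, `Polynomial.ringHom_ext`), the product is invariant (`Equiv.prod_comp`). `sym_root φ y p (P.coeff j)` gives `b_j ∈ A` with `φ b_j = eval₂ φ y (P.coeff j)`, the coefficient of `X^j` of `∏_i Φ.map (eval₂RingHom (Int.castRingHom S) (y i))` (apply `Polynomial.map (MvPolynomial.eval₂Hom φ y)` to `P`).
The product is monic (`Φ` monic); `Ψ` as in step 4 of `PRD.lean` (`Pool/Agent/H87/TW/PRD.lean`; `φ` injective). -/

namespace Pool.Agent.H87.TX

open Finset Polynomial Pool.Agent.H87.TW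

section aux

variable {R : Type} [CommRing R]

/-- the generic norm -/
private noncomputable def gnrm {m : ℕ} (Y : Fin m → R) (Φ : ℤ[X][X]) : R[X] :=
  ∏ i, Φ.map (eval₂RingHom (Int.castRingHom R) (Y i))

private theorem gnrm_map {R' : Type} [CommRing R'] (f : R →+* R') {m : ℕ} (Y : Fin m → R)
    (Φ : ℤ[X][X]) : (gnrm Y Φ).map f = gnrm (fun i => f (Y i)) Φ := by
  unfold gnrm
  rw [Polynomial.map_prod]
  refine Finset.prod_congr rfl fun i _ => ?_
  rw [Polynomial.map_map]
  congr 1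
  refine Polynomial.ringHom_ext (fun a => ?_) ?_
  · simp
  · simp

private theorem gnrm_perm {m : ℕ} (Y : Fin m → R) (Φ : ℤ[X][X]) (e : Equiv.Perm (Fin m)) :
    gnrm (fun i => Y (e i)) Φ = gnrm Y Φ := by
  unfold gnrm
  exact Equiv.prod_comp e fun i => Φ.map (eval₂RingHom (Int.castRingHom R) (Y i))

end aux

theorem norm_pow {S : Type} [Field S] {m : ℕ} (φ : ℤ[X] →+* S) (hinj : Function.Injective φ)
    (y : Fin m → S) (hy : ∏ i, (X - C (y i)) = X ^ m - C (φ X)) (Φ : ℤ[X][X]) (hΦ : Φ.Monic) :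
    ∃ Ψ : ℤ[X][X], Ψ.Monic ∧
      Ψ.map φ = ∏ i, Φ.map (eval₂RingHom (Int.castRingHom S) (y i)) := by
  have hp : (X ^ m - C X : ℤ[X][X]).map φ = ∏ u, (X - C (y u)) := by
    rw [hy, Polynomial.map_sub, Polynomial.map_pow, map_X, map_C]
  let P : (MvPolynomial (Fin m) ℤ[X])[X] := gnrm (fun i => MvPolynomial.X i) Φ
  have hsym : ∀ j, (P.coeff j).IsSymmetric := by
    intro j e
    have h1 : P.map (MvPolynomial.rename (R := ℤ[X]) e).toRingHom = P := by
      change (gnrm _ _).map _ = _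
      rw [gnrm_map]
      have h3 : (fun i => (MvPolynomial.rename (R := ℤ[X]) e).toRingHom
          (MvPolynomial.X i)) =
          fun i => (MvPolynomial.X (e i) : MvPolynomial (Fin m) ℤ[X]) := by
        funext i
        exact MvPolynomial.rename_X _ _
      rw [h3]
      exact gnrm_perm _ Φ e
    have h4 := congrArg (fun f => f.coeff j) h1
    simp only [coeff_map] at h4
    exact h4
  have hb : ∀ j, ∃ b : ℤ[X], (gnrm y Φ).coeff j = φ b := by
    intro j
    obtain ⟨b, hb⟩ := sym_root φ y (X ^ m - C X) hp (P.coeff j) (hsym j)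
    refine ⟨b, ?_⟩
    rw [← hb]
    have h1 : P.map (MvPolynomial.eval₂Hom φ y) = gnrm y Φ := by
      change (gnrm _ _).map _ = _
      rw [gnrm_map]
      have h3 : (fun i => MvPolynomial.eval₂Hom φ y (MvPolynomial.X i)) = y := by
        funext i
        rw [MvPolynomial.eval₂Hom_X']
      rw [h3]
    have h4 := congrArg (fun f => f.coeff j) h1
    simp only [coeff_map] at h4
    exact h4.symm
  have hl : gnrm y Φ ∈ Polynomial.lifts φ := by
    rw [Polynomial.lifts_iff_coeff_lifts]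
    intro j
    obtain ⟨b, hb⟩ := hb j
    exact ⟨b, hb.symm⟩
  have hm : (gnrm y Φ).Monic := monic_prod_of_monic _ _ fun i _ => hΦ.map _
  obtain ⟨Ψ, h1, _, h3⟩ := Polynomial.lifts_and_natDegree_eq_and_monic hl hm
  exact ⟨Ψ, h3, h1⟩

end Pool.Agent.H87.TX
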