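import Pool.Agent.H87.TX.Defs

/-! # [H87 TX ZMG] The rotated twisted series: coefficients, growth, integrality

`rou_prim`: `Complex.isPrimitiveRoot_exp`. `zm_coeff`: `PowerSeries.coeff_rescale`, `zt_coeff` (`Pool/Agent/H87/TW/GRO.lean`), `(C q * X)^(m-1) = C (q^(m-1)) * X^(m-1)`.
`zm_growth`: `‖rou m‖ = 1` (`IsPrimitiveRoot.norm'_eq_one` or `Complex.norm_exp`), `zt_growth` (as in `GRO.lean`), and for `k = m - 1`: `mu q^(m-1) ≤ mu ρ^k`. `zm_int`: a root of unity is integral (`rou m ^ m = 1`, `m ≥ 1`; `IsPrimitiveRoot.isIntegral`). -/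

namespace Pool.Agent.H87.TX

open Finset Polynomial Pool.Agent.H72.ES Pool.Agent.H87.SA2 Pool.Agent.H8.AW Pool.Agent.H52.AC
  Pool.Agent.H87.TW

variable {n m q mu : ℕ}

theorem rou_prim (hm : 1 ≤ m) : IsPrimitiveRoot (rou m) m := by
  unfold rou
  exact Complex.isPrimitiveRoot_exp m (by omega)

theorem zm_coeff (W : Fin n → ℂ) (x : Fin n → PowerSeries ℂ)
    (p : Fin m × Equiv.Perm (Fin n)) (k : ℕ) : PowerSeries.coeff k (ZM m q mu W x p) =
      rou m ^ ((p.1 : ℕ) * k) * (∑ u, W (p.2 u) * PowerSeries.coeff k (x u) +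
        if k = m - 1 then (mu : ℂ) * (q : ℂ) ^ (m - 1) else 0) := by
  unfold ZM
  rw [PowerSeries.coeff_rescale, ← pow_mul, map_add, zt_coeff, mul_pow, ← map_pow,
    ← mul_assoc, ← map_mul, PowerSeries.coeff_C_mul, PowerSeries.coeff_X_pow]
  congr 2
  split_ifs <;> simp

theorem rou_norm (hm : 1 ≤ m) : ‖rou m‖ = 1 :=
  (rou_prim hm).norm'_eq_one (by omega)

theorem zm_growth (hm : 1 ≤ m) (W : Fin n → ℂ) (x : Fin n → PowerSeries ℂ) {V R ρ : ℝ}
    (hV0 : 0 ≤ V) (hR0 : 0 ≤ R) (hRρ : R ≤ ρ) (hρ1 : 1 ≤ ρ) (hqρ : (q : ℝ) ≤ ρ)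
    (hV : ∀ u, ‖W u‖ ≤ V) (hR : ∀ u k, ‖PowerSeries.coeff k (x u)‖ ≤ R ^ (k + 1))
    (p : Fin m × Equiv.Perm (Fin n)) (k : ℕ) :
    ‖PowerSeries.coeff k (ZM m q mu W x p)‖ ≤ (n * V * R + mu) * ρ ^ k := by
  rw [zm_coeff, norm_mul, norm_pow, rou_norm hm, one_pow, one_mul, add_mul]
  refine (norm_add_le _ _).trans (add_le_add ?_ ?_)
  · have h := zt_growth W x hV0 hR0 hV hR p.2 k
    rw [zt_coeff] at h
    refine h.trans ?_
    exact mul_le_mul_of_nonneg_left (pow_le_pow_left₀ hR0 hRρ k) (by positivity)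
  · split_ifs with h
    · rw [norm_mul, norm_pow, Complex.norm_natCast, Complex.norm_natCast, ← h]
      exact mul_le_mul_of_nonneg_left (pow_le_pow_left₀ (by positivity) hqρ k) (by positivity)
    · rw [norm_zero]
      positivity

theorem zm_int (hm : 1 ≤ m) (W : Fin n → ℂ) (x : Fin n → PowerSeries ℂ) (hW : ∀ u, IsIntegral ℤ (W u))
    (hx : ∀ u k, IsIntegral ℤ (PowerSeries.coeff k (x u))) (p : Fin m × Equiv.Perm (Fin n)) (k : ℕ) :
    IsIntegral ℤ (PowerSeries.coeff k (ZM m q mu W x p)) := by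
  rw [zm_coeff]
  refine IsIntegral.mul ?_ (IsIntegral.add ?_ ?_)
  · exact ((rou_prim hm).isIntegral (by omega)).pow _
  · exact IsIntegral.sum _ fun u _ => (hW _).mul (hx u k)
  · split_ifs
    · have h1 : (mu : ℂ) * (q : ℂ) ^ (m - 1) = algebraMap ℤ ℂ ((mu : ℤ) * (q : ℤ) ^ (m - 1)) := by
        simp
      rw [h1]
      exact isIntegral_algebraMap
    · exact isIntegral_zero

end Pool.Agent.H87.TX
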