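import Mathlib

/-! # [H87 TX LMX] The choice of `mu` (Mathlib only)

For each `k` at most one natural number `mu` satisfies `α k + mu β k = 0` (`β k ≠ 0`). So some `mu ≤ card ι` satisfies none: otherwise choose for each `mu ∈ range (card ι + 1)` an index `k(mu)`; this map is injective (`mu β = mu' β` implies `mu = mu'`), contradiction to the pigeonhole principle
(`Finset.card_le_card_of_injOn` or `Finset.exists_ne_map_eq_of_card_lt_of_maps_to`). -/

namespace Pool.Agent.H87.TX

theorem exists_mu {ι : Type} [Fintype ι] (α β : ι → ℂ) (hβ : ∀ k, β k ≠ 0) :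
    ∃ mu : ℕ, mu ≤ Fintype.card ι ∧ ∀ k, α k + (mu : ℂ) * β k ≠ 0 := by
  classical
  by_contra hcon
  push Not at hcon
  have h1 : ∀ mu : ℕ, mu ≤ Fintype.card ι → ∃ k, α k + (mu : ℂ) * β k = 0 := hcon
  have h2 : ∀ mu : Fin (Fintype.card ι + 1), ∃ k, α k + ((mu : ℕ) : ℂ) * β k = 0 :=
    fun mu => h1 mu (Nat.lt_succ_iff.mp mu.2)
  choose g hg using h2
  have hinj : Function.Injective g := by
    intro a b hab
    have ha := hg a
    have hb := hg b
    rw [hab] at ha
    have h3 : (((a : ℕ) : ℂ) - ((b : ℕ) : ℂ)) * β (g b) = 0 := by linear_combination ha - hb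
    rcases mul_eq_zero.mp h3 with h4 | h4
    · exact Fin.ext (Nat.cast_injective (sub_eq_zero.mp h4))
    · exact absurd h4 (hβ _)
  have h5 := Fintype.card_le_of_injective g hinj
  rw [Fintype.card_fin] at h5
  omega

end Pool.Agent.H87.TX
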