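import Pool.Agent.H87.TX.ZMG

/-! # [H87 TX MLD] All rotations are branches: `m ≤ D`

`P = (fI D F).map (tq m q) = ∏_k (X - C (ZM (j k)))`. For `i : Fin m` let `g_i = PowerSeries.rescale (rou m ^ i)`. `g_i` fixes `tq m q p` for all `p ∈ ℤ[X]` (`Polynomial.ringHom_ext`; `X ↦ (C q * X)^m`, `rescale c X = C c * X`, `(rou^i)^m = 1`, `rou_prim`), so `P.map g_i = P`, so `g_i (ZM (0, 1))` is a root of `P`
(`Polynomial.map_prod`, evaluate: the factor of `k0`), i.e. equal to some `ZM (j k)`. `g_i (ZM (0, 1)) = ZM (i, 1)` (definition of `ZM`; `rou^0 = 1`, `PowerSeries.rescale_one`). By `hZ`: `j k = (i, 1)`. The map `i ↦ k` is injective, so `m ≤ D` (`Fintype.card_le_of_injective`). -/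

namespace Pool.Agent.H87.TX

open Finset Polynomial Pool.Agent.H72.ES Pool.Agent.H87.SA2 Pool.Agent.H8.AW Pool.Agent.H52.AC
  Pool.Agent.H97.NW Pool.Agent.H87.TW

private theorem mld_rC (a b : ℂ) :
    PowerSeries.rescale a (PowerSeries.C b) = PowerSeries.C b := by
  ext k
  rw [PowerSeries.coeff_rescale, PowerSeries.coeff_C]
  split_ifs with h
  · rw [h, pow_zero, one_mul]
  · rw [mul_zero]

theorem m_le_D {n m q mu D : ℕ} (hm : 1 ≤ m) (F : ℕ → ℕ → ℤ) (W : Fin n → ℂ)
    (x : Fin n → PowerSeries ℂ) (hZ : Function.Injective (ZM m q mu W x))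
    (j : Fin D → Fin m × Equiv.Perm (Fin n)) (k0 : Fin D) (hj0 : j k0 = (⟨0, hm⟩, 1))
    (hs : (fI D F).map (tq m q) = ∏ k, (X - C (ZM m q mu W x (j k)))) : m ≤ D := by
  have hfix : ∀ i : Fin m, (PowerSeries.rescale (rou m ^ (i : ℕ))).comp (tq m q) = tq m q := by
    intro i
    refine Polynomial.ringHom_ext (fun a => ?_) ?_
    · simp [tq]
    · unfold tq
      rw [RingHom.comp_apply, coe_eval₂RingHom, eval₂_X, map_pow, map_mul, mld_rC,
        PowerSeries.rescale_X]
      have h1 : (rou m ^ (i : ℕ)) ^ m = 1 := by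
        rw [← pow_mul, mul_comm, pow_mul, (rou_prim hm).pow_eq_one, one_pow]
      calc (PowerSeries.C (q : ℂ) * (PowerSeries.C (rou m ^ (i : ℕ)) * PowerSeries.X)) ^ m =
            PowerSeries.C ((rou m ^ (i : ℕ)) ^ m) * (PowerSeries.C (q : ℂ) * PowerSeries.X) ^ m := by
            rw [mul_left_comm, mul_pow (PowerSeries.C (rou m ^ (i : ℕ))), ← map_pow PowerSeries.C]
        _ = (PowerSeries.C (q : ℂ) * PowerSeries.X) ^ m := by
            rw [h1, map_one, one_mul]
  have key : ∀ i : Fin m, ∃ k : Fin D, j k = (i, 1) := by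
    intro i
    have h1 : ((fI D F).map (tq m q)).map (PowerSeries.rescale (rou m ^ (i : ℕ))) =
        (fI D F).map (tq m q) := by
      rw [Polynomial.map_map, hfix i]
    have h2 : eval (PowerSeries.rescale (rou m ^ (i : ℕ)) (ZM m q mu W x (j k0)))
        ((fI D F).map (tq m q)) = 0 := by
      rw [← h1, hs, Polynomial.map_prod, eval_prod]
      refine Finset.prod_eq_zero (mem_univ k0) ?_
      simp
    rw [hs, eval_prod, Finset.prod_eq_zero_iff] at h2
    obtain ⟨k, -, hk⟩ := h2
    rw [eval_sub, eval_X, eval_C, sub_eq_zero] at hk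
    refine ⟨k, ?_⟩
    apply hZ
    rw [← hk, hj0]
    simp only [ZM, pow_zero]
    simp
  choose k hk using key
  have hinj : Function.Injective k := by
    intro a b hab
    have h1 := hk a
    rw [hab, hk b] at h1
    exact (Prod.mk.inj h1).1.symm
  have h3 := Fintype.card_le_of_injective k hinj
  simpa using h3

end Pool.Agent.H87.TX
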