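import Pool.Agent.H87.TX.ZMG
import Pool.Agent.H87.TW.LAU

/-! # [H87 TX ROU] The roots of `Y^m = x^m`

`rou m` is a primitive `m`-th root of unity (`rou_prim`). The elements `y i = (iL (C (rou m ^ i)) * s)⁻¹`, `s = sL 1 q ≠ 0` (`sL_ne`), `i : Fin m`, are `m` different roots of `X^m - C (s⁻¹^m)` (`iL ∘ C` is an injective ring homomorphism, `(rou^i)^m = 1`), and `(s⁻¹)^m = (sL m q)⁻¹ = phL m q X`
(`eval₂_X`; `(C q * X)^m = ((C q * X)^1)^m`). A monic polynomial of degree `m` with `m` different roots is the product (`X_pow_sub_C_eq_prod` of Mathlib for a primitive root `ζ = (iL (C (rou m)))⁻¹` and `α = s⁻¹`, `Finset.prod_range`/`Fin.prod_univ_eq_prod_range`; or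
`Polynomial.prod_multiset_X_sub_C_of_monic_of_roots_card_eq`). -/

namespace Pool.Agent.H87.TX

open Finset Polynomial Pool.Agent.H72.ES Pool.Agent.H87.SA2 Pool.Agent.H8.AW Pool.Agent.H52.AC
  Pool.Agent.H97.NW Pool.Agent.H97.FB Pool.Agent.H87.TW

theorem rou_prod {m q : ℕ} (hm : 1 ≤ m) (hq : 1 ≤ q) :
    ∏ i : Fin m, (X - C ((iL (PowerSeries.C (rou m ^ (i : ℕ))) * sL 1 q)⁻¹)) =
      X ^ m - C (phL m q X) := by
  have h0 : Function.Injective (iL.comp (PowerSeries.C (R := ℂ))) :=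
    iL_inj.comp (PowerSeries.C_injective)
  have h1 : IsPrimitiveRoot (iL (PowerSeries.C (rou m))) m :=
    (rou_prim hm).map_of_injective (f := iL.comp (PowerSeries.C (R := ℂ))) h0
  have h2 : ((sL 1 q)⁻¹) ^ m = phL m q X := by
    unfold phL sL
    rw [coe_eval₂RingHom, eval₂_X, inv_pow, ← map_pow, pow_one]
  rw [X_pow_sub_C_eq_prod h1.inv (by omega) h2,
    ← Fin.prod_univ_eq_prod_range (fun i => X - C ((iL (PowerSeries.C (rou m)))⁻¹ ^ i * (sL 1 q)⁻¹)) m]
  refine prod_congr rfl fun i _ => ?_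
  rw [map_pow, map_pow, mul_inv, inv_pow]

end Pool.Agent.H87.TX
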