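import Pool.Agent.H87.TX.ZMG

/-! # [H87 TX ZMI] The rotated twisted series are different

Let `ZM (i, τ) = ZM (i', τ')`. Constant terms (`zm_coeff`, `k = 0`, `rou m ^ 0 = 1`): `∑ W (τ u) coeff 0 (x u) + [0 = m - 1] mu q^(m-1)` equal (the same extra term), so `τ = τ'` by `hinj`. If `m = 1` then `i = i'` (`Fin 1`). If `m ≥ 2`: the coefficients of `T^(m-1)`: `rou^(i (m-1)) c = rou^(i' (m-1)) c` with
`c = ∑ W (τ u) coeff (m-1) (x u) + mu q^(m-1) ≠ 0` (`hmu`), so `rou^(i (m-1)) = rou^(i' (m-1))`; multiply by `rou^(i + i')` and use `rou^m = 1`: `rou^(i') = rou^i`, so `i = i'` (`IsPrimitiveRoot.pow_inj`). -/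

namespace Pool.Agent.H87.TX

open Finset Polynomial Pool.Agent.H72.ES Pool.Agent.H87.SA2 Pool.Agent.H8.AW Pool.Agent.H52.AC
  Pool.Agent.H87.TW

variable {n m q mu : ℕ}

theorem zm_inj (hm : 1 ≤ m) (W : Fin n → ℂ) (x : Fin n → PowerSeries ℂ)
    (hinj : Function.Injective fun τ : Equiv.Perm (Fin n) =>
      ∑ u, W (τ u) * PowerSeries.coeff 0 (x u))
    (hmu : ∀ τ : Equiv.Perm (Fin n), ∑ u, W (τ u) * PowerSeries.coeff (m - 1) (x u) +
      (mu : ℂ) * (q : ℂ) ^ (m - 1) ≠ 0) : Function.Injective (ZM m q mu W x) := by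
  rintro ⟨i, τ⟩ ⟨i', τ'⟩ h
  have h0 : τ = τ' := by
    apply hinj
    have h1 := congrArg (PowerSeries.coeff 0) h
    rw [zm_coeff, zm_coeff] at h1
    simpa using h1
  subst h0
  have h1 := congrArg (PowerSeries.coeff (m - 1)) h
  rw [zm_coeff, zm_coeff, if_pos rfl] at h1
  have h2 : rou m ^ ((i : ℕ) * (m - 1)) = rou m ^ ((i' : ℕ) * (m - 1)) :=
    mul_right_cancel₀ (hmu τ) h1
  have h4 : ∀ a b : ℕ, rou m ^ (a * (m - 1)) * rou m ^ (a + b) = rou m ^ b := by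
    intro a b
    have h5 : a * (m - 1) + (a + b) = m * a + b := by
      obtain ⟨k, rfl⟩ : ∃ k, m = k + 1 := ⟨m - 1, by omega⟩
      rw [Nat.add_sub_cancel]
      ring
    rw [← pow_add, h5, pow_add, pow_mul, (rou_prim hm).pow_eq_one, one_pow, one_mul]
  have h3 : rou m ^ (i' : ℕ) = rou m ^ (i : ℕ) := by
    rw [← h4 i i', h2, add_comm (i : ℕ), h4]
  have h6 : (i' : ℕ) = i := (rou_prim hm).pow_inj i'.2 i.2 h3
  have h7 : i = i' := Fin.ext h6.symm
  rw [h7]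

end Pool.Agent.H87.TX
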