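import Pool.Agent.H87.TX.RSC
import Pool.Agent.H87.TX.NRM
import Pool.Agent.H87.TX.FSM
import Pool.Agent.H87.TX.ROU
import Pool.Agent.H87.TX.ZMI
import Pool.Agent.H87.TX.MLD
import Pool.Agent.H87.TW.PRD
import Pool.Agent.H87.TW.FAC
import Pool.Agent.H87.TW.IRA
import Pool.Agent.H87.TW.SYN

/-! # [H87 TX ALX] The twisted curve over `x^m`: the algebra (assembly)

Model: `Pool/Agent/H87/TW/ALG.lean`. `s = sL 1 q`, `w_u = wv n lam (Q.th a u)`. `prod_perm` (`φ = phL 1 q`, `p = f`, `fam_splitM`, weights `iL (C w_u)`) gives `Φ0` with roots `(sL m q)⁻¹ * iL (Zt w x τ)`. `Φ = Φ0.comp (X - C (C mu * X))` (roots plus `mu x`, `phL 1 q X = s⁻¹`): monic, and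
`mu s⁻¹ = (sL m q)⁻¹ * iL (C mu * (C q * X)^(m-1))` (`1 ≤ m`, `sL m q = s^m`), so `Φ.map (phL 1 q) = ∏_τ (X - C ((sL m q)⁻¹ * iL (V τ)))`, `V τ = Zt w x τ + C mu * (C q * X)^(m-1)`.
`norm_pow` with `φ = phL m q`, `y i = (iL (C (rou m ^ i)) * s)⁻¹` (`rou_prod`) gives `Ψ`. With `R` from `exists_resc (rou m ^ i)`: `R s = iL (C (rou^i)) * s`, `eval₂RingHom (Int.castRingHom _) (y i) = R.comp (phL 1 q)` (`Polynomial.ringHom_ext'`), so `Φ.map (eval₂RingHom _ (y i)) = (Φ.map (phL 1 q)).map R =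
∏_τ (X - C ((sL m q)⁻¹ * iL (rescale (rou^i) (V τ))))` since `R (sL m q) = sL m q` (`(rou^i)^m = 1`). So `Ψ.map (phL m q) = ∏_(i, τ) (X - C ((sL m q)⁻¹ * iL (ZM m q mu w x (i, τ))))` (`Fintype.prod_prod_type`). `zm_inj`: the roots are different. `exists_fac` (`ι = Fin m × Equiv.Perm (Fin n)`, `i0 = (0, 1)`).
`D ≤ card ι = m * n!`. `deg_bound`, `arr_split`, `arr_irr` with `e = m`. `m ≤ D`: `m_le_D`. -/

namespace Pool.Agent.H87.TX

open Finset Polynomial Pool.Agent.H72.ES Pool.Agent.H87.SA2 Pool.Agent.H8.AW Pool.Agent.H52.AC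
  Pool.Agent.H97.NW Pool.Agent.H97.FB Pool.Agent.H97.GA Pool.Agent.H87.TW

/-- the shift by `mu x` -/
private lemma alx_shift {m q mu : ℕ} (hm : 1 ≤ m) (hq : 1 ≤ q) :
    (mu : LaurentSeries ℂ) * (sL 1 q)⁻¹ =
      (sL m q)⁻¹ * iL (PowerSeries.C (mu : ℂ) *
        (PowerSeries.C (q : ℂ) * PowerSeries.X) ^ (m - 1)) := by
  have h1 : sL m q = iL ((PowerSeries.C (q : ℂ) * PowerSeries.X) ^ (m - 1)) * sL 1 q := by
    unfold sL
    rw [← map_mul, pow_one, ← pow_succ, Nat.sub_add_cancel hm]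
  have h2 : sL 1 q ≠ 0 := sL_ne hq
  have h3 : sL m q ≠ 0 := sL_ne hq
  have h4 : iL (PowerSeries.C (mu : ℂ)) = (mu : LaurentSeries ℂ) := by
    rw [map_natCast, map_natCast]
  rw [map_mul, h4, eq_inv_mul_iff_mul_eq₀ h3, h1]
  field_simp

private lemma alx_resc (ω : ℂ) (q k : ℕ) :
    PowerSeries.rescale ω ((PowerSeries.C (q : ℂ) * PowerSeries.X) ^ k) =
      PowerSeries.C (ω ^ k) * (PowerSeries.C (q : ℂ) * PowerSeries.X) ^ k := by
  have h1 : PowerSeries.rescale ω (PowerSeries.C (q : ℂ)) = PowerSeries.C (q : ℂ) := by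
    rw [map_natCast PowerSeries.C, map_natCast]
  rw [map_pow, map_mul, PowerSeries.rescale_X, h1, map_pow]
  ring

theorem exists_algM {n m B : ℕ} {f : ℤ[X][X]} (Q : UnM n m B f) (a lam mu : ℕ)
    (hθ : Rts (fa f a) (Q.th a))
    (hinj : Function.Injective fun τ : Equiv.Perm (Fin n) =>
      ∑ u, wv n lam (Q.th a (τ u)) * PowerSeries.coeff 0 (Q.pd.x u))
    (hmu : ∀ τ : Equiv.Perm (Fin n),
      ∑ u, wv n lam (Q.th a (τ u)) * PowerSeries.coeff (m - 1) (Q.pd.x u) +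
        (mu : ℂ) * (Q.pd.q : ℂ) ^ (m - 1) ≠ 0) :
    ∃ (D : ℕ) (F : ℕ → ℕ → ℤ) (j : Fin D → Fin m × Equiv.Perm (Fin n)) (k0 : Fin D),
      D ≤ m * n.factorial ∧ m ≤ D ∧ F 0 D = 1 ∧ (∀ i k, D < i + k → F i k = 0) ∧
      Irreducible (FQ D F) ∧ Function.Injective j ∧ j k0 = (⟨0, Q.m1⟩, 1) ∧
      (fI D F).map (tq m Q.pd.q) =
        ∏ k, (X - C (ZM m Q.pd.q mu (fun u => wv n lam (Q.th a u)) Q.pd.x (j k))) := by
  classical
  obtain ⟨q, hqd⟩ : ∃ q, q = Q.pd.q := ⟨_, rfl⟩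
  have hq1 : 1 ≤ q := hqd ▸ Q.pd.q_pos
  have hm1 : 1 ≤ m := Q.m1
  obtain ⟨w, hw⟩ : ∃ w : Fin n → ℂ, w = fun u => wv n lam (Q.th a u) := ⟨_, rfl⟩
  rw [← hqd, ← hw]
  rw [← hqd] at hmu
  -- the polynomial of the weights
  obtain ⟨qw, hqw⟩ := w_poly (fa f a) (Q.th a) hθ.1 lam
  -- the two splittings over the Laurent series
  have hp : f.map (phL 1 q) = ∏ u, (X - C ((sL m q)⁻¹ * iL (Q.pd.x u))) := by
    have h1 := fam_splitM Q.monic Q.deg Q.cdeg Q.pd Q.e1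
    rw [← hqd] at h1
    exact h1
  have hqq : (qw.map (C : ℤ →+* ℤ[X])).map (phL 1 q) =
      ∏ u, (X - C (iL (PowerSeries.C (w u)))) := by
    rw [Polynomial.map_map]
    have h1 : (phL 1 q).comp (C : ℤ →+* ℤ[X]) =
        (iL.comp (PowerSeries.C : ℂ →+* PowerSeries ℂ)).comp (Int.castRingHom ℂ) :=
      Subsingleton.elim _ _
    rw [h1, ← Polynomial.map_map, hqw, Polynomial.map_prod]
    refine prod_congr rfl fun u _ => ?_
    rw [Polynomial.map_sub, Polynomial.map_X, Polynomial.map_C, hw]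
    rfl
  obtain ⟨Φ0, hΦ1, -, hΦ3⟩ := prod_perm (phL 1 q) (phL_inj le_rfl hq1)
    (fun u => (sL m q)⁻¹ * iL (Q.pd.x u)) (fun u => iL (PowerSeries.C (w u))) f
    (qw.map (C : ℤ →+* ℤ[X])) hp hqq
  have hz : ∀ τ : Equiv.Perm (Fin n), ∑ u, iL (PowerSeries.C (w (τ u))) *
      ((sL m q)⁻¹ * iL (Q.pd.x u)) = (sL m q)⁻¹ * iL (Zt w Q.pd.x τ) := by
    intro τ
    unfold Zt
    rw [map_sum, mul_sum]
    refine sum_congr rfl fun u _ => ?_
    rw [map_mul]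
    ring
  obtain ⟨V, hV⟩ : ∃ V : Equiv.Perm (Fin n) → PowerSeries ℂ, V = fun τ => Zt w Q.pd.x τ +
    PowerSeries.C (mu : ℂ) * (PowerSeries.C (q : ℂ) * PowerSeries.X) ^ (m - 1) := ⟨_, rfl⟩
  -- the shifted polynomial
  obtain ⟨Φ, hΦ⟩ : ∃ Φ : ℤ[X][X], Φ = Φ0.comp (X - C ((mu : ℤ[X]) * X)) := ⟨_, rfl⟩
  have hΦm : Φ.Monic := by
    rw [hΦ]
    refine hΦ1.comp (monic_X_sub_C _) ?_
    rw [natDegree_X_sub_C]
    exact one_ne_zero
  have hphX : phL 1 q ((mu : ℤ[X]) * X) = (mu : LaurentSeries ℂ) * (sL 1 q)⁻¹ := by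
    rw [map_mul, map_natCast]
    congr 1
    unfold phL
    rw [coe_eval₂RingHom, eval₂_X]
  have hΦs : Φ.map (phL 1 q) =
      ∏ τ : Equiv.Perm (Fin n), (X - C ((sL m q)⁻¹ * iL (V τ))) := by
    rw [hΦ, Polynomial.map_comp, hΦ3, Polynomial.map_sub, map_X, map_C, hphX, Polynomial.prod_comp]
    refine prod_congr rfl fun τ _ => ?_
    rw [sub_comp, X_comp, C_comp, hz τ, hV, map_add, mul_add, ← alx_shift hm1 hq1, C_add]
    ring
  -- the norm
  obtain ⟨Ψ, hΨm, hΨ⟩ := norm_pow (phL m q) (phL_inj hm1 hq1)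
    (fun i : Fin m => (iL (PowerSeries.C (rou m ^ (i : ℕ))) * sL 1 q)⁻¹) (rou_prod hm1 hq1) Φ hΦm
  have hroum : rou m ^ m = 1 := (rou_prim hm1).pow_eq_one
  have hrou0 : rou m ≠ 0 := by
    intro h
    rw [h, zero_pow (by omega)] at hroum
    exact zero_ne_one hroum
  have hfac : ∀ i : Fin m, Φ.map (eval₂RingHom (Int.castRingHom (LaurentSeries ℂ))
      ((iL (PowerSeries.C (rou m ^ (i : ℕ))) * sL 1 q)⁻¹)) =
      ∏ τ : Equiv.Perm (Fin n), (X - C ((sL m q)⁻¹ * iL (ZM m q mu w Q.pd.x (i, τ)))) := by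
    intro i
    obtain ⟨R, hR⟩ := exists_resc (rou m ^ (i : ℕ)) (pow_ne_zero _ hrou0)
    have h1 : eval₂RingHom (Int.castRingHom (LaurentSeries ℂ))
        ((iL (PowerSeries.C (rou m ^ (i : ℕ))) * sL 1 q)⁻¹) = R.comp (phL 1 q) := by
      apply Polynomial.ringHom_ext
      · intro c
        rw [RingHom.comp_apply]
        unfold phL
        simp
      · rw [RingHom.comp_apply]
        unfold phL
        rw [coe_eval₂RingHom, eval₂_X, coe_eval₂RingHom, eval₂_X, map_inv₀]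
        congr 1
        unfold sL
        rw [hR, alx_resc, map_mul, pow_one, pow_one]
    have h2 : R (sL m q) = sL m q := by
      unfold sL
      rw [hR, alx_resc, ← pow_mul, mul_comm (i : ℕ) m, pow_mul, hroum, one_pow, map_one, one_mul]
    rw [h1, ← Polynomial.map_map, hΦs, Polynomial.map_prod]
    refine prod_congr rfl fun τ _ => ?_
    rw [Polynomial.map_sub, map_X, map_C, map_mul, map_inv₀, h2, hR, hV]
    rfl
  have hΨs : Ψ.map (phL m q) = ∏ p : Fin m × Equiv.Perm (Fin n),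
      (X - C ((sL m q)⁻¹ * iL (ZM m q mu w Q.pd.x p))) := by
    rw [hΨ, Fintype.prod_prod_type]
    exact prod_congr rfl fun i _ => hfac i
  have hs0 : (sL m q)⁻¹ ≠ 0 := inv_ne_zero (sL_ne hq1)
  have hZM : Function.Injective (ZM m q mu w Q.pd.x) := by
    refine zm_inj hm1 w Q.pd.x ?_ ?_
    · rw [hw]
      exact hinj
    · rw [hw]
      exact hmu
  have hZinj : Function.Injective fun p : Fin m × Equiv.Perm (Fin n) =>
      (sL m q)⁻¹ * iL (ZM m q mu w Q.pd.x p) := by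
    intro p p' h
    exact hZM (iL_inj (mul_left_cancel₀ hs0 h))
  obtain ⟨D, g, j, k0, hg1, hg2, hg3, hj, hk0, hg4⟩ := exists_fac (phL m q)
    (fun p : Fin m × Equiv.Perm (Fin n) => (sL m q)⁻¹ * iL (ZM m q mu w Q.pd.x p)) hZinj Ψ hΨm hΨs
    (⟨0, hm1⟩, 1)
  have hD1 : 1 ≤ D := by
    have := k0.2
    omega
  have hdeg : ∀ i, (g.coeff i).natDegree ≤ D - i :=
    deg_bound hm1 hq1 g hg2 (fun k => ZM m q mu w Q.pd.x (j k)) hg4
  have hsp := arr_split hm1 hq1 g hg1 hg2 hdeg (fun k => ZM m q mu w Q.pd.x (j k)) hg4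
  refine ⟨D, arr g, j, k0, ?_, m_le_D hm1 (arr g) w Q.pd.x hZM j k0 hk0 hsp, ?_, ?_,
    arr_irr g hg1 hg2 hD1 hdeg hg3, hj, hk0, hsp⟩
  · have h1 := Fintype.card_le_of_injective j hj
    rwa [Fintype.card_fin, Fintype.card_prod, Fintype.card_fin, Fintype.card_perm,
      Fintype.card_fin] at h1
  · unfold arr
    have h1 : g.coeff D = 1 := by
      rw [← hg2]
      exact hg1.coeff_natDegree
    rw [h1, coeff_one_zero]
  · intro i k hik
    unfold arr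
    by_cases hk : k ≤ D
    · apply coeff_eq_zero_of_natDegree_lt
      have := hdeg k
      omega
    · rw [coeff_eq_zero_of_natDegree_lt (by omega : g.natDegree < k), coeff_zero]

end Pool.Agent.H87.TX
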