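import Pool.Agent.H87.TX.HGX
import Pool.Agent.H97.XC.Disc
import Pool.Agent.H34.AC.Sqf
import Pool.Agent.H34.AC.RedR

/-! # [H87 TX CRX] The twisted curve as a `CrvB`, `e = m`

Copy of `Pool/Agent/H87/TW/CRB.lean` (`exists_crvB`) with `tq m q`: `pd.e = m`, `m ≤ D ≤ D!` (`Nat.self_le_factorial`); the height is `≤ (4A)^D (2A)^(m D) ≤ A^(3 D + 2 m D) ≤ A^(3N + 2mN)` (`arr_leX`, `U = ρ = A`; `4A ≤ A^3`, `2A ≤ A^2`); the rest as in `CRB.lean`. -/

namespace Pool.Agent.H87.TX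

open Finset Polynomial Pool.Agent.H87.SA2 Pool.Agent.H8.AW Pool.Agent.H52.AC Pool.Agent.H97.NW

theorem exists_crvX (N m : ℕ) (hm : 1 ≤ m) : ∃ K : ℕ, 1 ≤ K ∧ ∀ (ν D A q : ℕ) (F : ℕ → ℕ → ℤ)
    (Z : Fin D → PowerSeries ℂ), D ≤ N → D ≤ ν → m ≤ D → 2 ≤ A → 1 ≤ q → q ≤ A → F 0 D = 1 →
    (∀ i j, D < i + j → F i j = 0) → Irreducible (FQ D F) → Function.Injective Z →
    (∀ i k, IsIntegral ℤ (PowerSeries.coeff k (Z i))) →
    (∀ i k, ‖PowerSeries.coeff k (Z i)‖ ≤ (A : ℝ) * (A : ℝ) ^ k) →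
    (fI D F).map (tq m q) = ∏ i, (X - C (Z i)) →
    ∃ Cv : CrvB ν D (A ^ K) F, Cv.pd.e = m ∧ Cv.pd.q = q ∧ Cv.pd.x = Z := by
  obtain ⟨H, hH⟩ : ∃ H, H = 3 * N + 2 * (m * N) := ⟨_, rfl⟩
  obtain ⟨K, hK⟩ : ∃ K, K = (2 * N).factorial + (N * (N + 1) + H) * (2 * N) + H + 1 := ⟨_, rfl⟩
  refine ⟨K, by omega, ?_⟩
  intro ν D A q F Z hDN hDν hmD hA hq hqA hF0 hFz hirr hinj hint hgr hs
  have hD1 : 1 ≤ D := hm.trans hmD
  have hA1 : 1 ≤ A := by omega
  have hAR : (2 : ℝ) ≤ (A : ℝ) := by exact_mod_cast hA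
  have hA1R : (1 : ℝ) ≤ (A : ℝ) := by linarith
  have hle : ∀ i j, |F i j| ≤ ((A ^ H : ℕ) : ℤ) := by
    intro i j
    by_cases hij : i + j ≤ D
    · have h1 := arr_leX hm hq Z hA1R hA1R hgr F hs i j hij
      have h2 : (4 * (A : ℝ)) ^ D ≤ (A : ℝ) ^ (3 * D) := by
        rw [pow_mul]
        refine pow_le_pow_left₀ (by positivity) ?_ D
        nlinarith [mul_nonneg (sub_nonneg.2 hAR) (sub_nonneg.2 hAR), sq_nonneg ((A : ℝ) - 2)]
      have h3 : (2 * (A : ℝ)) ^ (m * D) ≤ (A : ℝ) ^ (2 * (m * D)) := by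
        rw [pow_mul (A : ℝ) 2]
        refine pow_le_pow_left₀ (by positivity) ?_ _
        nlinarith
      have h4 : |(F i j : ℝ)| ≤ (A : ℝ) ^ H := by
        refine h1.trans ((mul_le_mul h2 h3 (by positivity) (by positivity)).trans ?_)
        rw [← pow_add]
        refine pow_le_pow_right₀ hA1R ?_
        rw [hH]
        have h5 : m * D ≤ m * N := Nat.mul_le_mul_left m hDN
        omega
      exact_mod_cast h4
    · rw [hFz i j (by omega)]
      simp
  have hHK : A ^ H ≤ A ^ K := Nat.pow_le_pow_right hA1 (by omega)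
  have hK1 : 1 ≤ K := by omega
  have hAK : A ≤ A ^ K := by
    calc A = A ^ 1 := (pow_one A).symm
      _ ≤ A ^ K := Nat.pow_le_pow_right hA1 hK1
  let pd : PData (fI D F) D :=
    { e := m
      q := q
      e_pos := hm
      q_pos := hq
      x := Z
      x_inj := hinj
      split := hs
      integral := hint
      R := A
      R_ge := hAR
      growth := fun i k => by
        rw [pow_succ']
        exact hgr i k }
  have hmon := Pool.Agent.H34.AC.fI_monic hF0
  have hsq := Pool.Agent.H34.AC.fI_sqf hF0 hirr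
  have hbd := Pool.Agent.H34.AC.fI_bd (d := D) hle
  obtain ⟨u, v, c, hc0, huv, hcd, hcc⟩ := Pool.Agent.H97.XC.disc_bd hmon.1 hmon.2 hD1 hbd
    (Nat.one_le_pow _ _ hA1) hsq
  have hfin : (2 * D).factorial * ((D + 1) * (D * A ^ H)) ^ (2 * D) ≤ A ^ K := by
    have h1 : (2 * D).factorial ≤ A ^ (2 * N).factorial := by
      calc (2 * D).factorial ≤ (2 * N).factorial := Nat.factorial_le (by omega)
        _ ≤ 2 ^ (2 * N).factorial := Nat.lt_two_pow_self.le
        _ ≤ A ^ (2 * N).factorial := Nat.pow_le_pow_left hA _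
    have h2 : (D + 1) * D ≤ A ^ (N * (N + 1)) := by
      calc (D + 1) * D ≤ N * (N + 1) := by nlinarith
        _ ≤ 2 ^ (N * (N + 1)) := Nat.lt_two_pow_self.le
        _ ≤ A ^ (N * (N + 1)) := Nat.pow_le_pow_left hA _
    have h3 : ((D + 1) * (D * A ^ H)) ^ (2 * D) ≤ A ^ ((N * (N + 1) + H) * (2 * N)) := by
      calc ((D + 1) * (D * A ^ H)) ^ (2 * D) ≤ (A ^ (N * (N + 1) + H)) ^ (2 * D) := by
            refine Nat.pow_le_pow_left ?_ _
            rw [← mul_assoc, pow_add]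
            exact Nat.mul_le_mul_right _ h2
        _ = A ^ ((N * (N + 1) + H) * (2 * D)) := (pow_mul A _ _).symm
        _ ≤ A ^ ((N * (N + 1) + H) * (2 * N)) :=
            Nat.pow_le_pow_right hA1 (Nat.mul_le_mul_left _ (by omega))
    calc (2 * D).factorial * ((D + 1) * (D * A ^ H)) ^ (2 * D) ≤
          A ^ (2 * N).factorial * A ^ ((N * (N + 1) + H) * (2 * N)) := Nat.mul_le_mul h1 h3
      _ = A ^ ((2 * N).factorial + (N * (N + 1) + H) * (2 * N)) := by rw [pow_add]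
      _ ≤ A ^ K := Nat.pow_le_pow_right hA1 (by omega)
  refine ⟨{ d1 := hD1
            dn := hDν
            b2 := hA.trans hAK
            lead := hF0
            le := fun i j => (hle i j).trans (by exact_mod_cast hHK)
            irr := hirr
            pd := pd
            e_le := hmD.trans (Nat.self_le_factorial D)
            q_le := hqA.trans hAK
            R_le := by
              show (A : ℝ) ≤ ((A ^ K : ℕ) : ℝ)
              exact_mod_cast hAK
            bez := ⟨u, v, c, hc0, huv, hcd, fun i => (hcc i).trans (by exact_mod_cast hfin)⟩ },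
    rfl, rfl, rfl⟩

end Pool.Agent.H87.TX
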