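import Pool.Agent.H87.TW.Defs
import Pool.Agent.H87.TW.GRO

/-!
# THEOREM U (MP_821da1_nt), families of arbitrary degree `m` in the parameter (helper87) -- definitions

`UnM n m B f`: `f ∈ ℤ[x][Z]` monic of degree `n` in `Z`, the coefficient of `Z^i` of degree at most
`m (n - i)`, unramified at `x = ∞` (the branches `Z / x^m` are power series `x_u` in `T`, `1/x = q T`, with
different constant terms).
`th Q a u = a^m x_u(1/(q a))`: the roots of `f(a, Z)`. `rou m`: a primitive `m`-th root of unity.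
`ZM`: the branches of the twisted curve over the line with coordinate `x^m` (`1/x^m = (q T)^m`): the series
`∑_u W (τ u) x_u + mu (q T)^(m-1)` (this is `(∑_u W (τ u) x^m x_u + mu x) / x^m`) and their rotations.
-/

namespace Pool.Agent.H87.TX

open Finset Polynomial Pool.Agent.H72.ES Pool.Agent.H87.SA2 Pool.Agent.H8.AW Pool.Agent.H52.AC
  Pool.Agent.H97.NW Pool.Agent.H97.FB Pool.Agent.H97.GA Pool.Agent.H87.TW

/-- a family in normal form, unramified at infinity, all constants at most `B` -/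
structure UnM (n m B : ℕ) (f : ℤ[X][X]) where
  n2 : 2 ≤ n
  m1 : 1 ≤ m
  B2 : 2 ≤ B
  monic : f.Monic
  deg : f.natDegree = n
  cdeg : ∀ i, (f.coeff i).natDegree ≤ m * (n - i)
  le : ∀ i j, |(f.coeff i).coeff j| ≤ (B : ℤ)
  pd : PData (rv n m f) n
  e1 : pd.e = 1
  q_le : pd.q ≤ B
  R_le : pd.R ≤ B
  inj0 : Function.Injective fun u => PowerSeries.coeff 0 (pd.x u)

/-- the roots of `f(a, Z)` -/
noncomputable def UnM.th {n m B : ℕ} {f : ℤ[X][X]} (Q : UnM n m B f) (a : ℕ) (u : Fin n) : ℂ :=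
  (a : ℂ) ^ m * evz (1 / ((Q.pd.q : ℂ) * a)) (Q.pd.x u)

/-- a primitive `m`-th root of unity -/
noncomputable def rou (m : ℕ) : ℂ := Complex.exp (2 * Real.pi * Complex.I / m)

/-- the branches of the twisted curve over the line with coordinate `x^m` -/
noncomputable def ZM {n : ℕ} (m q mu : ℕ) (W : Fin n → ℂ) (x : Fin n → PowerSeries ℂ)
    (p : Fin m × Equiv.Perm (Fin n)) : PowerSeries ℂ :=
  PowerSeries.rescale (rou m ^ (p.1 : ℕ)) (Zt W x p.2 +
    PowerSeries.C (mu : ℂ) * (PowerSeries.C (q : ℂ) * PowerSeries.X) ^ (m - 1))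

end Pool.Agent.H87.TX
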