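import Pool.Agent.H87.TW.TAU

/-! # [H87 TX TAX] The permutations of the branches, constant terms shifted by an integer

The proof of `tau_of` (`Pool/Agent/H87/TW/TAU.lean`) with the constant `c0` (`σ c0 = c0`, `map_intCast`). -/

namespace Pool.Agent.H87.TX

open Finset Polynomial Pool.Agent.H72.ES Pool.Agent.H87.SA2 Pool.Agent.H8.AW Pool.Agent.H52.AC
  Pool.Agent.H97.NW Pool.Agent.H97.GA Pool.Agent.H37.TU

theorem tau_ofC {n ν : ℕ} (P : Ptd ν) (θ gam : Fin n → ℂ) (hθ : ∀ u, θ u ∈ AA)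
    (hgam : ∀ u, gam u ∈ AA) (lam : ℕ) (c0 : ℤ) (j : Fin P.d → Equiv.Perm (Fin n)) (h1 : j P.i = 1)
    (hinj : Function.Injective fun τ : Equiv.Perm (Fin n) => ∑ u, wv n lam (θ (τ u)) * gam u)
    (hc : ∀ i, PowerSeries.coeff 0 (P.C.pd.x i) =
      ∑ u, wv n lam (θ (j i u)) * gam u + (c0 : ℂ)) : TauA θ gam P := by
  obtain ⟨θ', hθ'⟩ : ∃ θ' : Fin n → AA, ∀ u, ((θ' u : AA) : ℂ) = θ u := ⟨fun u => ⟨θ u, hθ u⟩, fun _ => rfl⟩
  obtain ⟨gam', hgam'⟩ : ∃ gam' : Fin n → AA, ∀ u, ((gam' u : AA) : ℂ) = gam u :=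
    ⟨fun u => ⟨gam u, hgam u⟩, fun _ => rfl⟩
  have hco : ∀ τ : Equiv.Perm (Fin n),
      (((∑ u, wv n lam (θ' (τ u)) * gam' u + (c0 : AA) : AA)) : ℂ) =
      ∑ u, wv n lam (θ (τ u)) * gam u + (c0 : ℂ) := by
    intro τ
    have h2 : algebraMap AA ℂ (∑ u, wv n lam (θ' (τ u)) * gam' u + (c0 : AA)) =
        ∑ u, wv n lam (θ (τ u)) * gam u + (c0 : ℂ) := by
      rw [map_add, map_sum, map_intCast]
      congr 1
      refine sum_congr rfl fun u _ => ?_
      rw [map_mul, map_wv]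
      congr 1
      · congr 1
        exact hθ' _
      · exact hgam' u
    exact h2
  refine ⟨j, h1, ?_, ?_⟩
  · intro σ ν' π hν hπ i i' hk
    have h2 := hk 0 (∑ u, wv n lam (θ' (j i u)) * gam' u + (c0 : AA)) (by rw [hco, hc])
    rw [map_add, map_sum, map_intCast, hc i'] at h2
    have h3 : ∀ u, σ (wv n lam (θ' (j i u)) * gam' u) =
        wv n lam (θ (ν' (j i u))) * gam (π u) := by
      intro u
      rw [map_mul, map_wv]
      congr 1
      · congr 1
        exact hν (j i u) (θ' (j i u)) (hθ' _)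
      · exact hπ u (gam' u) (hgam' u)
    rw [sum_congr rfl fun u _ => h3 u] at h2
    have h2' := add_right_cancel h2
    apply hinj
    show ∑ u, wv n lam (θ (j i' u)) * gam u =
      ∑ u, wv n lam (θ ((ν' * j i * π⁻¹) u)) * gam u
    rw [← h2', ← Equiv.sum_comp π (fun u => wv n lam (θ ((ν' * j i * π⁻¹) u)) * gam u)]
    refine sum_congr rfl fun u _ => ?_
    simp
  · intro ζ hζ i i' hr
    apply hinj
    show ∑ u, wv n lam (θ (j i' u)) * gam u = ∑ u, wv n lam (θ (j i u)) * gam u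
    have h2 : ∑ u, wv n lam (θ (j i' u)) * gam u + (c0 : ℂ) =
        ∑ u, wv n lam (θ (j i u)) * gam u + (c0 : ℂ) := by
      rw [← hc, ← hc, ← hr, PowerSeries.coeff_rescale, pow_zero, one_mul]
    exact add_right_cancel h2

end Pool.Agent.H87.TX
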