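import Pool.Agent.H87.TX.ZMG
import Pool.Agent.H97.FB.ANV

/-! # [H87 TX ZMV] The values of the rotated twisted series

`evz T (rescale c w) = evz (c * T) w` (termwise in the `tsum`, `PowerSeries.coeff_rescale`, `mul_pow`; see `anv_rescale` in `Pool/Agent/H97/FB/ANV.lean`). `‖rou m ^ i * T‖ = ‖T‖`. Then `evz` is additive on convergent series (`zt_ev` and its proof in `Pool/Agent/H87/TW/GRO.lean`) and the term `C mu * (C q * X)^(m-1)` is the monomial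
`mu q^(m-1) X^(m-1)` with the value `mu (q T)^(m-1)`. Alternatively: `zm_coeff`, `tsum` of a sum, `tsum_ite_eq`. Summability: `‖coeff k (x u)‖ ‖T‖^k ≤ R (R ‖T‖)^k`. -/

namespace Pool.Agent.H87.TX

open Finset Polynomial Pool.Agent.H72.ES Pool.Agent.H87.SA2 Pool.Agent.H8.AW Pool.Agent.H52.AC
  Pool.Agent.H87.TW

variable {n m q mu : ℕ}

theorem evz_rescale (T c : ℂ) (w : PowerSeries ℂ) :
    evz T (PowerSeries.rescale c w) = evz (c * T) w := by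
  unfold Pool.Agent.H52.AC.evz
  refine tsum_congr fun k => ?_
  rw [PowerSeries.coeff_rescale, mul_pow]
  ring

theorem gr_pow {r : ℝ} (hr : 0 ≤ r) {w : PowerSeries ℂ} (hw : Gr r w) (k : ℕ) : Gr r (w ^ k) := by
  induction k with
  | zero => rw [pow_zero, ← map_one (PowerSeries.C (R := ℂ))]; exact gr_C r 1
  | succ k ih => rw [pow_succ]; exact gr_mul hr ih hw

theorem evz_pow {r : ℝ} (hr : 0 ≤ r) {T : ℂ} (hT : ‖T‖ ≤ r) {w : PowerSeries ℂ} (hw : Gr r w)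
    (k : ℕ) : evz T (w ^ k) = evz T w ^ k := by
  induction k with
  | zero => rw [pow_zero, pow_zero, ← map_one (PowerSeries.C (R := ℂ)), evz_C]
  | succ k ih => rw [pow_succ, pow_succ, evz_mul hT (gr_pow hr hw k) hw, ih]

theorem zm_ev (hm : 1 ≤ m) (W : Fin n → ℂ) (x : Fin n → PowerSeries ℂ) {R : ℝ} (hR0 : 0 ≤ R)
    (hR : ∀ u k, ‖PowerSeries.coeff k (x u)‖ ≤ R ^ (k + 1)) (p : Fin m × Equiv.Perm (Fin n)) {T : ℂ}
    (hT : R * ‖T‖ < 1) : evz T (ZM m q mu W x p) =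
      ∑ u, W (p.2 u) * evz (rou m ^ (p.1 : ℕ) * T) (x u) +
        (mu : ℂ) * ((q : ℂ) * (rou m ^ (p.1 : ℕ) * T)) ^ (m - 1) := by
  unfold ZM
  rw [evz_rescale]
  generalize hT' : rou m ^ (p.1 : ℕ) * T = T'
  have hn : ‖T'‖ = ‖T‖ := by
    rw [← hT', norm_mul, norm_pow, rou_norm hm, one_pow, one_mul]
  have hRT : R * ‖T'‖ < 1 := by rw [hn]; exact hT
  have h1 : Gr ‖T'‖ (Zt W x p.2) := by
    obtain ⟨V, hV⟩ : ∃ V : ℝ, ∀ u, ‖W u‖ ≤ V := by
      refine ⟨∑ u, ‖W u‖, fun u => ?_⟩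
      exact single_le_sum (f := fun u => ‖W u‖) (fun _ _ => norm_nonneg _) (mem_univ u)
    have hV' : ∀ u, ‖W u‖ ≤ max V 0 := fun u => (hV u).trans (le_max_left _ _)
    exact gr_of_le (C := n * max V 0 * R) hR0 (norm_nonneg _) hRT
      (zt_growth W x (le_max_right _ _) hR0 hV' hR p.2)
  have h2 : Gr ‖T'‖ (PowerSeries.C (q : ℂ) * PowerSeries.X) :=
    gr_mul (norm_nonneg _) (gr_C _ _) (gr_X _)
  have h3 := gr_pow (norm_nonneg T') h2 (m - 1)
  rw [evz_add le_rfl h1 (gr_mul (norm_nonneg _) (gr_C _ _) h3), zt_ev W x hR0 hR p.2 hRT,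
    evz_mul le_rfl (gr_C _ _) h3, evz_C, evz_pow (norm_nonneg _) le_rfl h2,
    evz_mul le_rfl (gr_C _ _) (gr_X _), evz_C, evz_X]

end Pool.Agent.H87.TX
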