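import Pool.Agent.H98.MR.Defs
import Pool.Agent.H87.TX.ALX
import Pool.Agent.H87.TX.ZMV
import Pool.Agent.H87.TX.CRX
import Pool.Agent.H87.TX.LMX
import Pool.Agent.H87.TX.TAX
import Pool.Agent.H87.TW.SPR
import Pool.Agent.H87.TW.LAM

/-! # [H87 TX TXF] The twisted curve over `x^m` (assembly)

Model: the proof of `exists_tw` in `Pool/Agent/H87/TW/TWF.lean`. `Λ` from `exists_lam n`; `lam ≤ Λ` for `θ = Q.th a` (injective by `Rts`), `gam = coeff 0 (Q.pd.x u)`. `w_u = wv n lam (Q.th a u)`, `T = 1 / (q a)`, `R ‖T‖ ≤ B / a < 1`.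
CHOICE OF `mu` (`exists_mu`, `ι = Perm ⊕ {p : Fin m × Perm // p.1 ≠ 0}`, card `≤ (m + 1) n!`): (1) `∑ w (τ u) coeff (m-1) (x u) + mu q^(m-1) ≠ 0` for all `τ`; (2) for all `(i, τ)` with `i ≠ 0`: the value `a^m evz T (ZM (i, τ)) = V_(i,τ) + mu a rou^(i (m-1))` (`zm_ev`: `a^m (q rou^i T)^(m-1) = a rou^(i (m-1))`, `1 ≤ m`) is different from
`a^m evz T (ZM (0, 1)) = V_(0,1) + mu a`: coefficient of `mu`: `a (rou^(i (m-1)) - 1) ≠ 0` (`m ≥ 2` as `i ≠ 0`; `rou^(m-1)` is primitive).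
For `i = 0`, `τ ≠ 1`: the values differ by `∑ w (τ u) θ_u - ∑ w (u) θ_u ≠ 0` (second part of `exists_lam`; `a^m evz T (x u) = θ_u`).
`exists_algM`: `D, F, j, k0`. `y = ∑_u w_u θ_u + mu a`, an integer (`tw_int`). NUMBERS as in `TWF.lean`: `‖w_u‖ ≤ a^(K0 n + 1)`, `zm_growth` (`ρ = B`): `≤ (n a^(K0 n + 1) B + mu) B^k ≤ a^(K0 n + 4) B^k` (`n, B, mu ≤ a`), `A = a^(K0 n + 4)`; `exists_crvX (m * n!) m`: `b = A^K`; `κ = (K0 n + 4) K`.
THE POINT: `x = a^m`, `T`: `(q T)^m a^m = 1`; `i = k0`; `hy`: `evz T (ZM (0,1)) = y / a^m`. `evy_rlx` (`U = A`, `ρ = B`). `Rlx κ c`: `B^c ≤ a ≤ a^m = |x|`; the bounds by powers of `a` are bounds by powers of `a^m`. `TauA`: `tau_ofC` with `tau k = (j k).2`, `c0 = if m = 1 then mu else 0` (`zm_coeff` with `k = 0`: the factor `rou^0 = 1`). -/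

namespace Pool.Agent.H87.TX

open Finset Polynomial Pool.Agent.H72.ES Pool.Agent.H87.SA2 Pool.Agent.H8.AW Pool.Agent.H52.AC
  Pool.Agent.H97.NW Pool.Agent.H97.FB Pool.Agent.H97.GA Pool.Agent.H37.TU Pool.Agent.H98.MR
  Pool.Agent.H87.TW

private theorem txf_int {n : ℕ} {f : ℤ[X][X]} (hm : f.Monic) {a : ℕ} {θ : Fin n → ℂ}
    (h : Rts (fa f a) θ) (u : Fin n) : IsIntegral ℤ (θ u) := by
  refine ⟨fa f a, hm.map _, ?_⟩
  have h1 : ((fa f a).map (Int.castRingHom ℂ)).eval (θ u) = 0 := by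
    rw [h.1, eval_prod]
    exact prod_eq_zero (mem_univ u) (by simp)
  rw [eval_map] at h1
  exact h1

private theorem txf_AA {z : ℂ} (hz : IsIntegral ℤ z) : z ∈ AA := by
  rw [mem_algebraicClosure_iff]
  exact (hz.tower_top (A := ℚ)).isAlgebraic

private theorem txf_wv {n lam Λ a K0 : ℕ} (hlam : lam ≤ Λ) (ha : 1 ≤ a) (hb : n * (Λ + 1) ^ n ≤ a)
    {θ : ℂ} (hθ : ‖θ‖ ≤ (a : ℝ) ^ K0) : ‖wv n lam θ‖ ≤ (a : ℝ) ^ (K0 * n + 1) := by
  unfold wv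
  have ha1 : (1 : ℝ) ≤ a := by exact_mod_cast ha
  have h1 : ∀ l ∈ range n, ‖(lam : ℂ) ^ l * θ ^ l‖ ≤ ((Λ : ℝ) + 1) ^ n * (a : ℝ) ^ (K0 * n) := by
    intro l hl
    have hl' : l ≤ n := (mem_range.1 hl).le
    rw [norm_mul, _root_.norm_pow, _root_.norm_pow, Complex.norm_natCast]
    refine mul_le_mul ?_ ?_ (by positivity) (by positivity)
    · have h2 : (lam : ℝ) ≤ (Λ : ℝ) + 1 := by
        have : (lam : ℝ) ≤ Λ := by exact_mod_cast hlam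
        linarith
      refine (pow_le_pow_left₀ (by positivity) h2 l).trans ?_
      exact pow_le_pow_right₀ (by have : (0 : ℝ) ≤ Λ := by positivity
                                  linarith) hl'
    · refine (pow_le_pow_left₀ (norm_nonneg _) hθ l).trans ?_
      rw [← pow_mul]
      exact pow_le_pow_right₀ ha1 (Nat.mul_le_mul_left _ hl')
  refine (norm_sum_le _ _).trans ((sum_le_sum h1).trans ?_)
  rw [sum_const, card_range, nsmul_eq_mul]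
  have h3 : (n : ℝ) * ((Λ : ℝ) + 1) ^ n ≤ a := by exact_mod_cast hb
  calc (n : ℝ) * (((Λ : ℝ) + 1) ^ n * (a : ℝ) ^ (K0 * n)) =
        ((n : ℝ) * ((Λ : ℝ) + 1) ^ n) * (a : ℝ) ^ (K0 * n) := by ring
    _ ≤ a * (a : ℝ) ^ (K0 * n) := mul_le_mul_of_nonneg_right h3 (by positivity)
    _ = (a : ℝ) ^ (K0 * n + 1) := by rw [pow_succ]; ring

/-- the rotation factor -/
private theorem txf_rou {m : ℕ} (hm : 1 ≤ m) {i : ℕ} (hi0 : i ≠ 0) (him : i < m) :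
    (rou m ^ i) ^ (m - 1) ≠ 1 := by
  intro h
  have hp := rou_prim hm
  have h1 : (rou m ^ i) ^ m = 1 := by rw [← pow_mul, mul_comm, pow_mul, hp.pow_eq_one, one_pow]
  have h2 : (rou m ^ i) ^ m = (rou m ^ i) ^ (m - 1) * rou m ^ i := by
    rw [← pow_succ]
    congr 1
    omega
  rw [h, one_mul, h1] at h2
  exact hp.pow_ne_one_of_pos_of_lt hi0 him h2.symm

theorem exists_twM (n m K0 : ℕ) (hn : 2 ≤ n) (hm : 1 ≤ m) : ∃ κ : ℕ, 1 ≤ κ ∧ ∀ c : ℕ, ∃ C : ℕ,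
    ∀ (B : ℕ) (f : ℤ[X][X]) (Q : UnM n m B f) (a : ℕ), B ^ C ≤ a → Rts (fa f a) (Q.th a) →
    (∀ u, ‖Q.th a u‖ ≤ (a : ℝ) ^ K0) → ∀ ν : ℕ, m * n.factorial ≤ ν →
    ∃ P : Ptd ν, P.x = (a : ℤ) ^ m ∧ Rlx κ c P ∧
      TauA (Q.th a) (fun u => PowerSeries.coeff 0 (Q.pd.x u)) P := by
  classical
  obtain ⟨Λ, hΛ⟩ := Pool.Agent.H87.TW.exists_lam n
  obtain ⟨K, hK1, hK⟩ := exists_crvX (m * n.factorial) m hm
  refine ⟨(K0 * n + 4) * K, Nat.mul_pos (by omega) hK1, fun c => ?_⟩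
  obtain ⟨CC, hCC⟩ : ∃ CC, CC = n * (Λ + 1) ^ n + n + c + (m + 1) * n.factorial + 2 := ⟨_, rfl⟩
  refine ⟨CC, ?_⟩
  intro B f Q a haC hR hth ν hν
  have hB2 : 2 ≤ B := Q.B2
  have hpow : ∀ k : ℕ, k ≤ CC → B ^ k ≤ a := fun k hk =>
    (Nat.pow_le_pow_right (by omega) hk).trans haC
  have hlt : ∀ k : ℕ, k ≤ CC → k < a := fun k hk =>
    (Nat.lt_pow_self (by omega : 1 < B)).trans_le (hpow k hk)
  have ha1 : 1 ≤ a := hlt 0 (by omega)
  have ha2 : 2 ≤ a := hlt 1 (by omega)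
  have hab : n * (Λ + 1) ^ n ≤ a := (hlt _ (by omega)).le
  have han : n ≤ a := (hlt _ (by omega)).le
  have hamu : (m + 1) * n.factorial ≤ a := (hlt _ (by omega)).le
  have hBa2 : B ^ 2 ≤ a := hpow 2 (by omega)
  have hBa : B < a := by nlinarith
  have haR1 : (1 : ℝ) ≤ a := by exact_mod_cast ha1
  have haR0 : (0 : ℝ) < a := by linarith
  have hBR2 : (2 : ℝ) ≤ B := by exact_mod_cast hB2
  have hBaR : (B : ℝ) < a := by exact_mod_cast hBa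
  have hnaR : (n : ℝ) ≤ a := by exact_mod_cast han
  have hq1 : 1 ≤ Q.pd.q := Q.pd.q_pos
  have hqR1 : (1 : ℝ) ≤ Q.pd.q := by exact_mod_cast hq1
  have hq0 : (Q.pd.q : ℂ) ≠ 0 := by
    have : Q.pd.q ≠ 0 := by omega
    exact_mod_cast this
  have ha0 : (a : ℂ) ≠ 0 := by
    have : a ≠ 0 := by omega
    exact_mod_cast this
  have hqB : Q.pd.q ≤ B := Q.q_le
  -- the weight
  obtain ⟨lam, hlam, hinj, hsec⟩ := hΛ (Q.th a) (fun u => PowerSeries.coeff 0 (Q.pd.x u)) hR.2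
    Q.inj0
  obtain ⟨W, hW⟩ : ∃ W : Fin n → ℂ, W = fun u => wv n lam (Q.th a u) := ⟨_, rfl⟩
  obtain ⟨T, hT⟩ : ∃ T : ℂ, T = 1 / ((Q.pd.q : ℂ) * a) := ⟨_, rfl⟩
  have hTn : (B : ℝ) * ‖T‖ < 1 := by
    rw [hT, norm_div, norm_one, norm_mul, Complex.norm_natCast, Complex.norm_natCast, mul_one_div,
      div_lt_one (by positivity)]
    nlinarith
  have hRB : ∀ u k, ‖PowerSeries.coeff k (Q.pd.x u)‖ ≤ (B : ℝ) ^ (k + 1) := fun u k =>
    (Q.pd.growth u k).trans (pow_le_pow_left₀ (by linarith [Q.pd.R_ge]) Q.R_le _)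
  -- the choice of mu
  obtain ⟨V, hV⟩ : ∃ V : Fin m × Equiv.Perm (Fin n) → ℂ, V = fun p =>
      (a : ℂ) ^ m * ∑ u, W (p.2 u) * evz (rou m ^ (p.1 : ℕ) * T) (Q.pd.x u) := ⟨_, rfl⟩
  obtain ⟨mu, hmule, hmu⟩ := exists_mu
    (ι := Equiv.Perm (Fin n) ⊕ {p : Fin m × Equiv.Perm (Fin n) // (p.1 : ℕ) ≠ 0})
    (Sum.elim (fun τ => ∑ u, W (τ u) * PowerSeries.coeff (m - 1) (Q.pd.x u))
      (fun p => V p.1 - V (⟨0, Q.m1⟩, 1)))
    (Sum.elim (fun _ => (Q.pd.q : ℂ) ^ (m - 1))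
      (fun p => (a : ℂ) * ((rou m ^ (p.1.1 : ℕ)) ^ (m - 1) - 1))) (by
      rintro (τ | ⟨⟨i, τ⟩, hi⟩)
      · exact pow_ne_zero _ hq0
      · exact mul_ne_zero ha0 (sub_ne_zero.2 (txf_rou hm hi i.isLt)))
  have hmu1 : ∀ τ : Equiv.Perm (Fin n), ∑ u, W (τ u) * PowerSeries.coeff (m - 1) (Q.pd.x u) +
      (mu : ℂ) * (Q.pd.q : ℂ) ^ (m - 1) ≠ 0 := fun τ => hmu (Sum.inl τ)
  have hmu2 : ∀ p : Fin m × Equiv.Perm (Fin n), (p.1 : ℕ) ≠ 0 →
      V p - V (⟨0, Q.m1⟩, 1) + (mu : ℂ) * ((a : ℂ) * ((rou m ^ (p.1 : ℕ)) ^ (m - 1) - 1)) ≠ 0 :=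
    fun p hp => hmu (Sum.inr ⟨p, hp⟩)
  have hmua : mu ≤ a := by
    refine hmule.trans (le_trans ?_ hamu)
    rw [Fintype.card_sum, Fintype.card_perm, Fintype.card_fin]
    have h1 : Fintype.card {p : Fin m × Equiv.Perm (Fin n) // (p.1 : ℕ) ≠ 0} ≤
        m * n.factorial := by
      refine (Fintype.card_subtype_le _).trans ?_
      rw [Fintype.card_prod, Fintype.card_perm, Fintype.card_fin, Fintype.card_fin]
    nlinarith
  obtain ⟨D, F, j, k0, hDn, hmD, hF1, hF2, hFirr, hjinj, hj0, hsplit⟩ := exists_algM Q a lam mu hR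
    hinj (by rw [hW] at hmu1; exact hmu1)
  obtain ⟨y0, hy0⟩ := tw_int (fa f a) (Q.th a) hR.1 lam
  obtain ⟨y, hy⟩ : ∃ y : ℤ, y = y0 + mu * a := ⟨_, rfl⟩
  have hyC : (y : ℂ) = ∑ u, W u * Q.th a u + (mu : ℂ) * a := by
    rw [hy, hW]
    push_cast
    rw [hy0]
  obtain ⟨Z, hZ⟩ : ∃ Z : Fin D → PowerSeries ℂ, Z = fun k => ZM m Q.pd.q mu W Q.pd.x (j k) :=
    ⟨_, rfl⟩
  obtain ⟨A, hA⟩ : ∃ A : ℕ, A = a ^ (K0 * n + 4) := ⟨_, rfl⟩
  have hAR : (A : ℝ) = (a : ℝ) ^ (K0 * n + 4) := by rw [hA]; push_cast; rfl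
  have haA : a ≤ A := by
    rw [hA]
    exact Nat.le_self_pow (by omega) a
  have hD1 : 1 ≤ D := by
    have := k0.2
    omega
  have hWn : ∀ u, ‖W u‖ ≤ (a : ℝ) ^ (K0 * n + 1) := fun u => by
    rw [hW]
    exact txf_wv hlam ha1 hab (hth u)
  have hgr : ∀ i k, ‖PowerSeries.coeff k (Z i)‖ ≤ (A : ℝ) * (B : ℝ) ^ k := by
    intro i k
    rw [hZ]
    refine (zm_growth hm W Q.pd.x (by positivity) (by positivity) le_rfl (by linarith)
      (by exact_mod_cast hqB) hWn hRB (j i) k).trans ?_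
    refine mul_le_mul_of_nonneg_right ?_ (by positivity)
    rw [hAR]
    have h1 : (n : ℝ) * (a : ℝ) ^ (K0 * n + 1) * B ≤ (a : ℝ) ^ (K0 * n + 3) := by
      calc (n : ℝ) * (a : ℝ) ^ (K0 * n + 1) * B ≤ a * (a : ℝ) ^ (K0 * n + 1) * a := by
            refine mul_le_mul ?_ hBaR.le (by positivity) (by positivity)
            exact mul_le_mul_of_nonneg_right hnaR (by positivity)
        _ = (a : ℝ) ^ (K0 * n + 3) := by ring
    have h2 : (mu : ℝ) ≤ (a : ℝ) ^ (K0 * n + 3) :=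
      (by exact_mod_cast hmua : (mu : ℝ) ≤ a).trans (le_self_pow₀ haR1 (by omega))
    have h3 : (2 : ℝ) ≤ a := by exact_mod_cast ha2
    calc (n : ℝ) * (a : ℝ) ^ (K0 * n + 1) * B + mu ≤ 2 * (a : ℝ) ^ (K0 * n + 3) := by linarith
      _ ≤ a * (a : ℝ) ^ (K0 * n + 3) := mul_le_mul_of_nonneg_right h3 (by positivity)
      _ = (a : ℝ) ^ (K0 * n + 4) := by ring
  have hBA : (B : ℝ) ≤ A := hBaR.le.trans (by exact_mod_cast haA)
  have hZinj : Function.Injective Z := by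
    intro k k' hkk
    apply hjinj
    rw [hZ] at hkk
    exact zm_inj hm W Q.pd.x (by rw [hW]; exact hinj) hmu1 hkk
  have hWint : ∀ u, IsIntegral ℤ (W u) := by
    intro u
    rw [hW]
    unfold wv
    refine IsIntegral.sum _ fun l _ => ?_
    refine IsIntegral.mul (IsIntegral.pow ?_ l) (IsIntegral.pow (txf_int Q.monic hR u) l)
    exact_mod_cast (isIntegral_algebraMap (R := ℤ) (A := ℂ) (x := (lam : ℤ)))
  obtain ⟨Cv, hCe, hCq, hCx⟩ := hK ν D A Q.pd.q F Z hDn (hDn.trans hν) hmD (ha2.trans haA) hq1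
    (hqB.trans (hBa.le.trans haA)) hF1 hF2 hFirr hZinj
    (fun i k => by rw [hZ]; exact zm_int hm W Q.pd.x hWint Q.pd.integral (j i) k)
    (fun i k => (hgr i k).trans (mul_le_mul_of_nonneg_left
      (pow_le_pow_left₀ (by positivity) hBA k) (by positivity))) (by
      rw [hZ, hW]
      exact hsplit)
  -- the values
  have haT : (Q.pd.q : ℂ) * T * a = 1 := by
    rw [hT]
    field_simp
  have hval : ∀ p : Fin m × Equiv.Perm (Fin n), (a : ℂ) ^ m * evz T (ZM m Q.pd.q mu W Q.pd.x p) =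
      V p + (mu : ℂ) * ((a : ℂ) * (rou m ^ (p.1 : ℕ)) ^ (m - 1)) := by
    intro p
    rw [zm_ev hm W Q.pd.x (by positivity) hRB p hTn, hV, mul_add]
    congr 1
    have h1 : (a : ℂ) ^ m = (a : ℂ) ^ (m - 1) * a := by
      rw [← pow_succ]
      congr 1
      omega
    have h2 : (Q.pd.q : ℂ) * (rou m ^ (p.1 : ℕ) * T) = (rou m ^ (p.1 : ℕ)) * ((Q.pd.q : ℂ) * T) := by
      ring
    rw [h1, h2, mul_pow]
    have h3 : ((Q.pd.q : ℂ) * T) ^ (m - 1) * (a : ℂ) ^ (m - 1) = 1 := by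
      rw [← mul_pow, haT, one_pow]
    calc (a : ℂ) ^ (m - 1) * a * ((mu : ℂ) * ((rou m ^ (p.1 : ℕ)) ^ (m - 1) *
          ((Q.pd.q : ℂ) * T) ^ (m - 1))) = (mu : ℂ) * ((a : ℂ) * (rou m ^ (p.1 : ℕ)) ^ (m - 1)) *
            (((Q.pd.q : ℂ) * T) ^ (m - 1) * (a : ℂ) ^ (m - 1)) := by ring
      _ = _ := by rw [h3, mul_one]
  have hV0 : ∀ τ : Equiv.Perm (Fin n), V (⟨0, Q.m1⟩, τ) = ∑ u, W (τ u) * Q.th a u := by
    intro τ
    rw [hV]
    show (a : ℂ) ^ m * ∑ u, W (τ u) * evz (rou m ^ 0 * T) (Q.pd.x u) = _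
    rw [pow_zero, one_mul, mul_sum]
    refine sum_congr rfl fun u _ => ?_
    have h1 : Q.th a u = (a : ℂ) ^ m * evz T (Q.pd.x u) := by
      rw [hT]
      rfl
    rw [h1]
    ring
  have hval0 : ∀ τ : Equiv.Perm (Fin n),
      (a : ℂ) ^ m * evz T (ZM m Q.pd.q mu W Q.pd.x (⟨0, Q.m1⟩, τ)) =
      ∑ u, W (τ u) * Q.th a u + (mu : ℂ) * a := by
    intro τ
    rw [hval, hV0]
    show _ + (mu : ℂ) * ((a : ℂ) * (rou m ^ 0) ^ (m - 1)) = _
    rw [pow_zero, one_pow, mul_one]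
  have ham : (a : ℂ) ^ m ≠ 0 := pow_ne_zero m ha0
  have hcast : (((a : ℤ) ^ m : ℤ) : ℂ) = (a : ℂ) ^ m := by push_cast; rfl
  have hTx : ((Cv.pd.q : ℂ) * T) ^ Cv.pd.e * (((a : ℤ) ^ m : ℤ) : ℂ) = 1 := by
    rw [hCe, hCq, hcast, ← mul_pow, haT, one_pow]
  have hyv : evz T (Cv.pd.x k0) = (y : ℂ) / (((a : ℤ) ^ m : ℤ) : ℂ) := by
    rw [hCx, hcast, eq_div_iff ham, mul_comm, hZ]
    show (a : ℂ) ^ m * evz T (ZM m Q.pd.q mu W Q.pd.x (j k0)) = _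
    rw [hj0, hval0, hyC]
    rfl
  have huniq : ∀ i, evz T (Cv.pd.x i) = (y : ℂ) / (((a : ℤ) ^ m : ℤ) : ℂ) → i = k0 := by
    intro i hi
    rw [hCx, hcast, eq_div_iff ham, mul_comm, hZ] at hi
    have hi' : (a : ℂ) ^ m * evz T (ZM m Q.pd.q mu W Q.pd.x (j i)) = y := hi
    by_contra hne
    have hjne : j i ≠ (⟨0, Q.m1⟩, 1) := fun h4 => hne (hjinj (h4.trans hj0.symm))
    by_cases hp : ((j i).1 : ℕ) = 0
    · have hp1 : (j i).1 = ⟨0, Q.m1⟩ := Fin.ext hp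
      have hp2 : (j i).2 ≠ 1 := fun h4 => hjne (Prod.ext hp1 h4)
      have hje : j i = (⟨0, Q.m1⟩, (j i).2) := Prod.ext hp1 rfl
      rw [hje, hval0, hyC] at hi'
      have h5 := add_right_cancel hi'
      rw [hW] at h5
      exact hsec _ hp2 h5
    · refine hmu2 (j i) hp ?_
      rw [hval, hyC] at hi'
      have h6 : V (⟨0, Q.m1⟩, 1) = ∑ u, W u * Q.th a u := by
        rw [hV0]
        rfl
      rw [h6]
      linear_combination hi'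
  have hgC : ∀ i k, ‖PowerSeries.coeff k (Cv.pd.x i)‖ ≤ (A : ℝ) * (B : ℝ) ^ k := by
    rw [hCx]
    exact hgr
  obtain ⟨hev, hevy⟩ := evy_rlx Cv.pd (by positivity) (by positivity) hgC hTn hTx hyv huniq
  let P : Ptd ν := ⟨D, A ^ K, F, Cv, k0, T, (a : ℤ) ^ m, y, hev, hTx, hyv⟩
  have habs : |((P.x : ℤ) : ℝ)| = (a : ℝ) ^ m := by
    show |((((a : ℤ) ^ m : ℤ)) : ℝ)| = (a : ℝ) ^ m
    push_cast
    rw [abs_of_nonneg (by positivity)]
  have ham1 : (a : ℝ) ≤ (a : ℝ) ^ m := le_self_pow₀ haR1 (by omega)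
  have hκ : (A : ℝ) ^ K = (a : ℝ) ^ ((K0 * n + 4) * K) := by
    rw [hAR, ← pow_mul]
  have hκm : (A : ℝ) ^ K ≤ ((a : ℝ) ^ m) ^ ((K0 * n + 4) * K) := by
    rw [hκ]
    exact pow_le_pow_left₀ (by positivity) ham1 _
  refine ⟨P, rfl, ⟨(B : ℝ), ?_⟩, ?_⟩
  · refine ⟨hBR2, ?_, ?_, ?_, ?_, hevy⟩
    · rw [habs]
      exact (by exact_mod_cast hpow c (by omega) : (B : ℝ) ^ c ≤ a).trans ham1
    · show ((Cv.pd.q : ℕ) : ℝ) ≤ B
      rw [hCq]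
      exact_mod_cast Q.q_le
    · intro i k
      rw [habs]
      refine (hgC i k).trans (mul_le_mul_of_nonneg_right ?_ (by positivity))
      refine le_trans ?_ hκm
      have hA1 : (1 : ℝ) ≤ A := by
        have : 1 ≤ A := ha1.trans haA
        exact_mod_cast this
      exact le_self_pow₀ hA1 (by omega)
    · rw [habs]
      show ((A ^ K : ℕ) : ℝ) ≤ _
      rw [Nat.cast_pow]
      exact hκm
  · refine tau_ofC P (Q.th a) (fun u => PowerSeries.coeff 0 (Q.pd.x u))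
      (fun u => txf_AA (txf_int Q.monic hR u)) (fun u => txf_AA (Q.pd.integral u 0)) lam
      (if m = 1 then (mu : ℤ) else 0) (fun k => (j k).2) ?_ hinj ?_
    · show (j k0).2 = 1
      rw [hj0]
    · intro i
      show PowerSeries.coeff 0 (Cv.pd.x i) = _
      rw [hCx, hZ]
      show PowerSeries.coeff 0 (ZM m Q.pd.q mu W Q.pd.x (j i)) = _
      rw [zm_coeff, mul_zero, pow_zero, one_mul, hW]
      congr 1
      by_cases hm1 : m = 1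
      · subst hm1
        simp
      · rw [if_neg (by omega), if_neg hm1]
        simp

end Pool.Agent.H87.TX
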