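import Pool.Agent.H87.TX.TXF
import Pool.Agent.H87.TX.UNX
import Pool.Agent.H97.FC.THB

/-! # [H87 TX TXG] The twisted curve over `x^m` of a fibre of a family of degree `m` -/

namespace Pool.Agent.H87.TX

open Finset Polynomial Pool.Agent.H72.ES Pool.Agent.H87.SA2 Pool.Agent.H8.AW Pool.Agent.H52.AC
  Pool.Agent.H97.NW Pool.Agent.H97.FB Pool.Agent.H97.FC Pool.Agent.H37.TU Pool.Agent.H98.MR

/-- the twisted curve of the fibre of a family of degree `m` in the parameter -/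
theorem exists_twMF (n m : ℕ) (hn : 2 ≤ n) (hm : 1 ≤ m) : ∃ κ : ℕ, 1 ≤ κ ∧ ∀ c : ℕ, ∃ C : ℕ,
    ∀ (B : ℕ) (f : ℤ[X][X]) (Fm : FamB n m B f),
    (Function.Injective fun u => PowerSeries.coeff 0 (Fm.pd.x u)) →
    ∀ a : ℕ, B ^ C ≤ a → ∀ ν : ℕ, m * n.factorial ≤ ν →
    ∃ P : Ptd ν, P.x = (a : ℤ) ^ m ∧ Rlx κ c P ∧
      TauA (thA Fm.pd m a) (fun u => PowerSeries.coeff 0 (Fm.pd.x u)) P := by
  obtain ⟨C1, hC1, h1⟩ := unm_of_fam n m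
  obtain ⟨C2, h2⟩ := thA_rts n m
  obtain ⟨K0, h3⟩ := thA_norm n m
  obtain ⟨κ, hκ, h4⟩ := exists_twM n m K0 hn hm
  refine ⟨κ, hκ, fun c => ?_⟩
  obtain ⟨C3, h5⟩ := h4 c
  refine ⟨C1 * C3 + C1 + C2 + K0, fun B f Fm hinj a ha ν hν => ?_⟩
  have hB1 : 0 < B := by
    have := Fm.B2
    omega
  have hle : ∀ k, k ≤ C1 * C3 + C1 + C2 + K0 → B ^ k ≤ a :=
    fun k hk => (Nat.pow_le_pow_right hB1 hk).trans ha
  obtain ⟨Q, hQ1, hQ2⟩ := h1 B f Fm hinj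
  have hth : Q.th a = thA Fm.pd m a := funext (hQ2 a (hle C1 (by omega)))
  obtain ⟨P, hx, hr, ht⟩ := h5 (B ^ C1) f Q a (by rw [← pow_mul]; exact hle _ (by omega))
    (by rw [hth]; exact h2 B f Fm a (hle C2 (by omega)))
    (by rw [hth]; exact h3 B f Fm a (hle K0 (by omega))) ν hν
  refine ⟨P, hx, hr, ?_⟩
  have h6 : (fun u => PowerSeries.coeff 0 (Q.pd.x u)) =
      fun u => PowerSeries.coeff 0 (Fm.pd.x u) := funext hQ1
  rw [← h6, ← hth]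
  exact ht

end Pool.Agent.H87.TX
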